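import Mathlib

/-!
# Values of integer polynomials at the roots of a quadratic polynomial
-/

set_option autoImplicit false

namespace Pool.Agent.H595.ED

open Polynomial

/-- the value of a quadratic polynomial -/
def ev (A B C : ℤ) (x : ℝ) : ℝ := A * x ^ 2 + B * x + C

/-- the resultant of two quadratic polynomials -/
def res (A B C a b c : ℤ) : ℤ := (A * c - a * C) ^ 2 - (A * b - a * B) * (B * c - b * C)

/-- `β`, `β'` are the roots of `a x ^ 2 + b x + c` -/
structure Rt (a b c : ℤ) (β β' : ℝ) : Prop where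
  sum : (a : ℝ) * (β + β') = -b
  prod : (a : ℝ) * (β * β') = c

theorem res_symm (A B C a b c : ℤ) : res A B C a b c = res a b c A B C := by
  unfold res
  ring

section

variable {a b c : ℤ} {β β' : ℝ}

theorem Rt.swap (h : Rt a b c β β') : Rt a b c β' β :=
  ⟨by rw [add_comm]; exact h.sum, by rw [mul_comm β']; exact h.prod⟩

theorem res_eq (h : Rt a b c β β') (A B C : ℤ) :
    (res A B C a b c : ℝ) = (a : ℝ) ^ 2 * (ev A B C β * ev A B C β') := by
  have hb : (b : ℝ) = -(a * (β + β')) := by rw [h.sum]; ring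
  have hc : (c : ℝ) = a * (β * β') := h.prod.symm
  unfold res ev
  push_cast
  rw [hb, hc]
  ring

theorem ev_root (h : Rt a b c β β') : ev a b c β = 0 := by
  have hb : (b : ℝ) = -(a * (β + β')) := by rw [h.sum]; ring
  have hc : (c : ℝ) = a * (β * β') := h.prod.symm
  unfold ev
  rw [hb, hc]
  ring

theorem sq_disc (h : Rt a b c β β') : ((a : ℝ) * (β - β')) ^ 2 = ((b ^ 2 - 4 * a * c : ℤ) : ℝ) := by
  have hb : (b : ℝ) = -(a * (β + β')) := by rw [h.sum]; ring
  have hc : (c : ℝ) = a * (β * β') := h.prod.symm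
  push_cast
  rw [hb, hc]
  ring

/-- `z` and `z'` are conjugate elements of the order -/
def Io (a : ℤ) (β β' z z' : ℝ) : Prop := ∃ u v : ℤ, z = u + v * (a * β) ∧ z' = u + v * (a * β')

theorem Io.zero : Io a β β' 0 0 := ⟨0, 0, by push_cast; ring, by push_cast; ring⟩

theorem Io.add {z z' w w' : ℝ} (h1 : Io a β β' z z') (h2 : Io a β β' w w') : Io a β β' (z + w) (z' + w') := by
  obtain ⟨u, v, e1, e2⟩ := h1
  obtain ⟨u', v', e3, e4⟩ := h2
  exact ⟨u + u', v + v', by rw [e1, e3]; push_cast; ring, by rw [e2, e4]; push_cast; ring⟩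

theorem Io.mul {z z' : ℝ} (k : ℤ) (h1 : Io a β β' z z') : Io a β β' (k * z) (k * z') := by
  obtain ⟨u, v, e1, e2⟩ := h1
  exact ⟨k * u, k * v, by rw [e1]; push_cast; ring, by rw [e2]; push_cast; ring⟩

theorem Io.finset_sum {ι : Type*} (s : Finset ι) {f g : ι → ℝ} (h : ∀ i ∈ s, Io a β β' (f i) (g i)) :
    Io a β β' (∑ i ∈ s, f i) (∑ i ∈ s, g i) := by
  classical
  induction s using Finset.induction_on with
  | empty => simpa using Io.zero
  | insert i s hi ih =>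
    rw [Finset.sum_insert hi, Finset.sum_insert hi]
    exact (h i (Finset.mem_insert_self i s)).add (ih fun j hj => h j (Finset.mem_insert_of_mem hj))

theorem sq_rel (h : Rt a b c β β') : ((a : ℝ) * β) ^ 2 = -b * (a * β) - a * c := by
  have h1 := ev_root h
  unfold ev at h1
  linear_combination (a : ℝ) * h1

theorem pow_Io (h : Rt a b c β β') (d : ℕ) : Io a β β' (((a : ℝ) * β) ^ d) (((a : ℝ) * β') ^ d) := by
  induction d with
  | zero => exact ⟨1, 0, by simp, by simp⟩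
  | succ d ih =>
    obtain ⟨u, v, e1, e2⟩ := ih
    refine ⟨-(a * c * v), u - b * v, ?_, ?_⟩
    · rw [pow_succ, e1]
      push_cast
      linear_combination (v : ℝ) * sq_rel h
    · rw [pow_succ, e2]
      push_cast
      linear_combination (v : ℝ) * sq_rel h.swap

theorem Io.conj (h : Rt a b c β β') {z z' : ℝ} (h1 : Io a β β' z z') : Io a β β' z' z := by
  obtain ⟨u, v, e1, e2⟩ := h1
  refine ⟨u - b * v, -v, ?_, ?_⟩
  · rw [e2]
    push_cast
    linear_combination (v : ℝ) * h.sum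
  · rw [e1]
    push_cast
    linear_combination (v : ℝ) * h.sum

theorem mono_Io (h : Rt a b c β β') {N i j : ℕ} (hi : i ≤ N) (hj : j ≤ N) :
    Io a β β' ((a : ℝ) ^ N * (β ^ i * β' ^ j)) ((a : ℝ) ^ N * (β' ^ i * β ^ j)) := by
  rcases le_total j i with hji | hij
  · obtain ⟨d, rfl⟩ := Nat.exists_eq_add_of_le hji
    obtain ⟨m, rfl⟩ := Nat.exists_eq_add_of_le hi
    have h1 := (pow_Io h d).mul (a ^ m * c ^ j)
    convert h1 using 1
    · push_cast
      rw [← h.prod]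
      ring
    · push_cast
      rw [← h.prod]
      ring
  · obtain ⟨d, rfl⟩ := Nat.exists_eq_add_of_le hij
    obtain ⟨m, rfl⟩ := Nat.exists_eq_add_of_le hj
    have h1 := ((pow_Io h d).conj h).mul (a ^ m * c ^ i)
    convert h1 using 1
    · push_cast
      rw [← h.prod]
      ring
    · push_cast
      rw [← h.prod]
      ring

theorem aeval_eq (x : ℝ) {F : ℤ[X]} {N : ℕ} (hF : F.natDegree ≤ N) :
    aeval x F = ∑ i ∈ Finset.range (N + 1), (F.coeff i : ℝ) * x ^ i := by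
  rw [aeval_eq_sum_range' (Nat.lt_succ_of_le hF)]
  refine Finset.sum_congr rfl fun i _ => ?_
  rw [zsmul_eq_mul]

theorem poly_Io (h : Rt a b c β β') {N : ℕ} {F G : ℤ[X]} (hF : F.natDegree ≤ N) (hG : G.natDegree ≤ N) :
    Io a β β' ((a : ℝ) ^ N * (aeval β F * aeval β' G)) ((a : ℝ) ^ N * (aeval β' F * aeval β G)) := by
  rw [aeval_eq β hF, aeval_eq β' hG, aeval_eq β' hF, aeval_eq β hG, Finset.sum_mul_sum, Finset.sum_mul_sum,
    Finset.mul_sum, Finset.mul_sum]
  refine Io.finset_sum _ fun i hi => ?_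
  rw [Finset.mul_sum, Finset.mul_sum]
  refine Io.finset_sum _ fun j hj => ?_
  rw [Finset.mem_range] at hi hj
  have h1 := (mono_Io h (Nat.lt_succ_iff.1 hi) (Nat.lt_succ_iff.1 hj)).mul (F.coeff i * G.coeff j)
  convert h1 using 1
  · push_cast
    ring
  · push_cast
    ring

/-- the norm form -/
theorem norm_form (h : Rt a b c β β') {z z' : ℝ} (h1 : Io a β β' z z') : ∃ x y : ℤ,
    2 * z = x + y * (a * (β - β')) ∧ 2 * z' = x - y * (a * (β - β')) ∧
    (y = 0 → ∃ u : ℤ, z = u ∧ z' = u) := by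
  obtain ⟨u, v, e1, e2⟩ := h1
  refine ⟨2 * u - v * b, v, ?_, ?_, fun hv => ⟨u, ?_, ?_⟩⟩
  · rw [e1]
    push_cast
    linear_combination (v : ℝ) * h.sum
  · rw [e2]
    push_cast
    linear_combination (v : ℝ) * h.sum
  · rw [e1, hv]
    push_cast
    ring
  · rw [e2, hv]
    push_cast
    ring

end

/-! ### Taylor's formula -/

theorem pow_bd1 {x y : ℝ} (hx : |x| ≤ 1) (hy : |y| ≤ 1) (i : ℕ) : |y ^ i - x ^ i| ≤ i * |y - x| := by
  induction i with
  | zero => simp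
  | succ i ih =>
    have e : y ^ (i + 1) - x ^ (i + 1) = y * (y ^ i - x ^ i) + (y - x) * x ^ i := by ring
    rw [e]
    refine (abs_add_le _ _).trans ?_
    rw [abs_mul, abs_mul, abs_pow]
    have h1 : |x| ^ i ≤ 1 := pow_le_one₀ (abs_nonneg _) hx
    have h2 : |y| * |y ^ i - x ^ i| ≤ 1 * |y ^ i - x ^ i| := mul_le_mul_of_nonneg_right hy (abs_nonneg _)
    have h3 : |y - x| * |x| ^ i ≤ |y - x| * 1 := mul_le_mul_of_nonneg_left h1 (abs_nonneg _)
    push_cast
    linarith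

theorem pow_bd2 {x y : ℝ} (hx : |x| ≤ 1) (hy : |y| ≤ 1) (i : ℕ) :
    |y ^ i - x ^ i - i * x ^ (i - 1) * (y - x)| ≤ (i : ℝ) ^ 2 * (y - x) ^ 2 := by
  induction i with
  | zero => simp
  | succ i ih =>
    have e : y ^ (i + 1) - x ^ (i + 1) - ((i + 1 : ℕ) : ℝ) * x ^ (i + 1 - 1) * (y - x) =
        (y ^ i - x ^ i) * (y - x) + x * (y ^ i - x ^ i - i * x ^ (i - 1) * (y - x)) := by
      rcases i with _ | i
      · simp
      · simp only [Nat.add_sub_cancel]
        push_cast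
        ring
    rw [e]
    refine (abs_add_le _ _).trans ?_
    rw [abs_mul, abs_mul]
    have h1 := mul_le_mul_of_nonneg_right (pow_bd1 hx hy i) (abs_nonneg (y - x))
    have h2 := mul_le_mul hx ih (abs_nonneg _) zero_le_one
    have h3 : |y - x| * |y - x| = (y - x) ^ 2 := by rw [← sq, sq_abs]
    rw [mul_assoc, h3] at h1
    have h4 : (0 : ℝ) ≤ i := Nat.cast_nonneg i
    have h5 := sq_nonneg (y - x)
    have h6 := mul_nonneg h4 h5
    push_cast
    nlinarith

/-- the value of the derivative -/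
noncomputable def dv (Q : ℤ[X]) (n : ℕ) (x : ℝ) : ℝ :=
  ∑ i ∈ Finset.range (n + 1), (Q.coeff i : ℝ) * (i * x ^ (i - 1))

theorem sum_bd {n : ℕ} {Q : ℤ[X]} {Y : ℝ} (hY : ∀ i, |(Q.coeff i : ℝ)| ≤ Y) {f : ℕ → ℝ} {t : ℝ} (ht : 0 ≤ t)
    (hf : ∀ i ≤ n, |f i| ≤ (n : ℝ) ^ 2 * t + t) :
    |∑ i ∈ Finset.range (n + 1), (Q.coeff i : ℝ) * f i| ≤ ((n : ℝ) + 1) ^ 3 * Y * t := by
  have hY0 : 0 ≤ Y := (abs_nonneg _).trans (hY 0)
  have hn0 : (0 : ℝ) ≤ n := Nat.cast_nonneg n
  refine (Finset.abs_sum_le_sum_abs _ _).trans ?_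
  refine (Finset.sum_le_card_nsmul _ _ (Y * ((n : ℝ) ^ 2 * t + t)) fun i hi => ?_).trans ?_
  · rw [abs_mul]
    exact mul_le_mul (hY i) (hf i (by rw [Finset.mem_range] at hi; omega)) (abs_nonneg _) hY0
  · rw [Finset.card_range, nsmul_eq_mul]
    push_cast
    have h1 : 0 ≤ Y * t := mul_nonneg hY0 ht
    nlinarith [mul_nonneg hn0 h1, mul_nonneg (mul_nonneg hn0 hn0) h1, mul_nonneg (mul_nonneg (mul_nonneg hn0 hn0) hn0) h1]

section

variable {n : ℕ} {Q : ℤ[X]} {Y x y : ℝ}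

theorem bd0 (hQ : Q.natDegree ≤ n) (hY : ∀ i, |(Q.coeff i : ℝ)| ≤ Y) (hx : |x| ≤ 1) :
    |aeval x Q| ≤ ((n : ℝ) + 1) ^ 3 * Y := by
  rw [aeval_eq x hQ]
  have := sum_bd (n := n) hY (f := fun i => x ^ i) zero_le_one (fun i _ => by
    rw [abs_pow]
    have h1 : |x| ^ i ≤ 1 := pow_le_one₀ (abs_nonneg _) hx
    have h2 : (0 : ℝ) ≤ (n : ℝ) ^ 2 := sq_nonneg _
    linarith)
  rwa [mul_one] at this

theorem bdd (hY : ∀ i, |(Q.coeff i : ℝ)| ≤ Y) (hx : |x| ≤ 1) : |dv Q n x| ≤ ((n : ℝ) + 1) ^ 3 * Y := by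
  have := sum_bd (n := n) hY (f := fun i => (i : ℝ) * x ^ (i - 1)) zero_le_one (fun i hi => by
    show |(i : ℝ) * x ^ (i - 1)| ≤ _
    rw [abs_mul, abs_pow, Nat.abs_cast]
    have h1 : |x| ^ (i - 1) ≤ 1 := pow_le_one₀ (abs_nonneg _) hx
    have h2 : (i : ℝ) ≤ n := by exact_mod_cast hi
    have h3 : (0 : ℝ) ≤ i := Nat.cast_nonneg i
    have h4 : (i : ℝ) * |x| ^ (i - 1) ≤ i * 1 := mul_le_mul_of_nonneg_left h1 h3
    nlinarith [sq_nonneg ((n : ℝ) - 1)])
  rw [mul_one] at this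
  exact this

theorem bd1 (hQ : Q.natDegree ≤ n) (hY : ∀ i, |(Q.coeff i : ℝ)| ≤ Y) (hx : |x| ≤ 1) (hy : |y| ≤ 1) :
    |aeval y Q - aeval x Q| ≤ ((n : ℝ) + 1) ^ 3 * Y * |y - x| := by
  rw [aeval_eq x hQ, aeval_eq y hQ, ← Finset.sum_sub_distrib]
  have := sum_bd (n := n) hY (f := fun i => y ^ i - x ^ i) (abs_nonneg (y - x)) (fun i hi => by
    refine (pow_bd1 hx hy i).trans ?_
    have h2 : (i : ℝ) ≤ n := by exact_mod_cast hi
    have h3 := abs_nonneg (y - x)
    have h4 : (n : ℝ) ≤ (n : ℝ) ^ 2 + 1 := by nlinarith [sq_nonneg ((n : ℝ) - 1)]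
    have h5 := mul_le_mul_of_nonneg_right (h2.trans h4) h3
    linarith)
  convert this using 2
  refine Finset.sum_congr rfl fun i _ => ?_
  ring

theorem bd2 (hQ : Q.natDegree ≤ n) (hY : ∀ i, |(Q.coeff i : ℝ)| ≤ Y) (hx : |x| ≤ 1) (hy : |y| ≤ 1) :
    |aeval y Q - aeval x Q - dv Q n x * (y - x)| ≤ ((n : ℝ) + 1) ^ 3 * Y * (y - x) ^ 2 := by
  rw [aeval_eq x hQ, aeval_eq y hQ, dv, Finset.sum_mul, ← Finset.sum_sub_distrib, ← Finset.sum_sub_distrib]
  have := sum_bd (n := n) hY (f := fun i => y ^ i - x ^ i - i * x ^ (i - 1) * (y - x)) (sq_nonneg (y - x))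
    (fun i hi => by
    refine (pow_bd2 hx hy i).trans ?_
    have h2 : (i : ℝ) ≤ n := by exact_mod_cast hi
    have h3 := sq_nonneg (y - x)
    have h4 : (i : ℝ) ^ 2 ≤ (n : ℝ) ^ 2 := pow_le_pow_left₀ (Nat.cast_nonneg i) h2 2
    have h5 := mul_le_mul_of_nonneg_right h4 h3
    linarith)
  convert this using 2
  refine Finset.sum_congr rfl fun i _ => ?_
  ring

end

/-! ### Quadratic polynomials -/

/-- the polynomial -/
noncomputable def qp (a b c : ℤ) : ℤ[X] := C a * X ^ 2 + C b * X + C c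

theorem aeval_qp (a b c : ℤ) (x : ℝ) : aeval x (qp a b c) = ev a b c x := by
  unfold qp ev
  simp only [map_add, map_mul, map_pow, aeval_C, aeval_X]
  simp

theorem natDegree_qp {a b c : ℤ} (ha : a ≠ 0) : (qp a b c).natDegree = 2 := natDegree_quadratic ha

theorem leadingCoeff_qp {a b c : ℤ} (ha : a ≠ 0) : (qp a b c).leadingCoeff = a := leadingCoeff_quadratic ha

theorem coeff_qp (a b c : ℤ) : (qp a b c).coeff 0 = c ∧ (qp a b c).coeff 1 = b ∧ (qp a b c).coeff 2 = a := by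
  unfold qp
  refine ⟨?_, ?_, ?_⟩ <;>
    rw [coeff_add, coeff_add, coeff_C_mul, coeff_X_pow, coeff_C_mul, coeff_X, coeff_C] <;> norm_num

theorem irr_qp {A B C' a b c : ℤ} (hres : res A B C' a b c = 1 ∨ res A B C' a b c = -1) (ha : a ≠ 0)
    (hsq : ¬ IsSquare (b ^ 2 - 4 * a * c)) : Irreducible (qp a b c) := by
  have hprim : (qp a b c).IsPrimitive := by
    intro r hr
    rw [C_dvd_iff_dvd_coeff] at hr
    obtain ⟨e0, e1, e2⟩ := coeff_qp a b c
    have hc := hr 0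
    have hb := hr 1
    have ha := hr 2
    rw [e0] at hc
    rw [e1] at hb
    rw [e2] at ha
    have h1 : r ∣ res A B C' a b c := by
      unfold res
      refine dvd_sub (dvd_pow ?_ two_ne_zero) (Dvd.dvd.mul_right ?_ _)
      · exact dvd_sub (hc.mul_left _) (ha.mul_right _)
      · exact dvd_sub (hb.mul_left _) (ha.mul_right _)
    rcases hres with h2 | h2
    · rw [h2] at h1
      exact isUnit_of_dvd_one h1
    · rw [h2] at h1
      exact isUnit_of_dvd_one (by simpa using h1)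
  rw [IsPrimitive.Int.irreducible_iff_irreducible_map_cast hprim]
  have hmap : (qp a b c).map (Int.castRingHom ℚ) = C (a : ℚ) * X ^ 2 + C (b : ℚ) * X + C (c : ℚ) := by
    unfold qp
    simp
  have haq : (a : ℚ) ≠ 0 := by exact_mod_cast ha
  rw [hmap]
  apply irreducible_of_degree_le_three_of_not_isRoot
  · rw [natDegree_quadratic haq]
    simp
  · intro x hx
    rw [IsRoot, eval_add, eval_add, eval_mul, eval_mul, eval_pow, eval_C, eval_C, eval_C, eval_X] at hx
    apply hsq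
    rw [← Rat.isSquare_intCast_iff]
    refine ⟨2 * a * x + b, ?_⟩
    push_cast
    linear_combination (-4 * (a : ℚ)) * hx

theorem dvd_of_root {P W : ℤ[X]} (hP : Irreducible P) (hd : 1 ≤ P.natDegree) {x : ℝ} (h1 : aeval x P = 0)
    (h2 : aeval x W = 0) : P ∣ W := by
  have pP := hP.isPrimitive (by omega)
  have iP := (IsPrimitive.Int.irreducible_iff_irreducible_map_cast pP).1 hP
  have eP : aeval x (P.map (Int.castRingHom ℚ)) = 0 := by
    rw [← h1]
    exact aeval_map_algebraMap ℚ x P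
  have eW : aeval x (W.map (Int.castRingHom ℚ)) = 0 := by
    rw [← h2]
    exact aeval_map_algebraMap ℚ x W
  have dP := minpoly.dvd ℚ x eP
  have dW := minpoly.dvd ℚ x eW
  have aP := (iP.dvd_iff.1 dP).resolve_left (minpoly.not_isUnit ℚ x)
  exact (IsPrimitive.Int.dvd_iff_map_cast_dvd_map_cast P W pP).2 (aP.dvd.trans dW)

end Pool.Agent.H595.ED
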