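import Pool.Agent.H595.ED.ED1

/-!
# Polynomials with a root very near to a root of the new quadratic polynomial: the inequalities
-/

set_option autoImplicit false

namespace Pool.Agent.H595.ED

open Polynomial

/-- the case of a polynomial which is independent of the two quadratic polynomials -/
theorem case_one {n : ℕ} (hn : 4 ≤ n) {M K W X Y ε c₁ A B y : ℝ} (hM : 1 ≤ M) (hK : 1 ≤ K) (hW : 1 ≤ W)
    (hX : (6 * M) ^ 3 ≤ X) (hY : 0 < Y) (hε : 0 < ε) (hy : 1 ≤ y) (hXY : X ≤ c₁ * Y)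
    (hA : A ≤ 8 * M * K * W * (X / Y) ^ n) (hB : W * B ≤ 4 * M * Y * ε) (hsum : 2 * y * (ε * X) ≤ A + B)
    (hsmall : 8 * M * K * W * c₁ ^ n < ε * X) (hprod : 1 ≤ A * B) (hA0 : 0 ≤ A) (hB0 : 0 ≤ B)
    (g2 : 10368 * M ^ 5 * K * ε < 1) (g3 : y ^ 3 ≤ X → 8 * M * K * (6 * M) ^ n / W ^ (n - 1) / y ^ 4 < A) : False := by
  have hM0 : 0 < M := by linarith
  have hK0 : 0 < K := by linarith
  have hW0 : 0 < W := by linarith
  have hX0 : 0 < X := lt_of_lt_of_le (by positivity) hX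
  have hy0 : 0 < y := by linarith
  obtain ⟨t, ht⟩ : ∃ t : ℝ, t = X / Y := ⟨_, rfl⟩
  have ht0 : 0 < t := by rw [ht]; positivity
  have hXt : X = t * Y := by rw [ht]; field_simp
  have htc : t ≤ c₁ := by
    rw [ht, div_le_iff₀ hY]
    exact hXY
  rw [← ht] at hA
  have hAs : A < ε * X := by
    refine (hA.trans ?_).trans_lt hsmall
    gcongr
  have hεX : 0 < ε * X := mul_pos hε hX0
  have h1 : y * (ε * X) ≤ B := by nlinarith
  have h2 : W * y * t ≤ 4 * M := by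
    have h3 := (mul_le_mul_of_nonneg_left h1 hW0.le).trans hB
    have h4 : W * y * t * (ε * Y) ≤ 4 * M * (ε * Y) := by
      calc W * y * t * (ε * Y) = W * (y * (ε * (t * Y))) := by ring
        _ = W * (y * (ε * X)) := by rw [← hXt]
        _ ≤ 4 * M * Y * ε := h3
        _ = _ := by ring
    exact le_of_mul_le_mul_right h4 (mul_pos hε hY)
  have h3 : t ≤ 4 * M / (W * y) := by
    rw [le_div_iff₀ (by positivity)]
    linarith
  rcases le_or_gt (y ^ 3) X with h4 | h4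
  · have h5 := g3 h4
    have h6 : 8 * M * K * W * t ^ n ≤ 8 * M * K * (6 * M) ^ n / W ^ (n - 1) / y ^ 4 := by
      rw [div_div, le_div_iff₀ (by positivity)]
      have h7 : (W * y * t) ^ n ≤ (6 * M) ^ n := by
        apply pow_le_pow_left₀ (by positivity)
        linarith
      have h8 : y ^ 4 ≤ y ^ n := pow_le_pow_right₀ hy hn
      have h9 : W * W ^ (n - 1) = W ^ n := by
        rw [← pow_succ']
        congr 1
        omega
      calc 8 * M * K * W * t ^ n * (W ^ (n - 1) * y ^ 4) = 8 * M * K * ((W * W ^ (n - 1)) * t ^ n * y ^ 4) := by ring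
        _ ≤ 8 * M * K * ((W * W ^ (n - 1)) * t ^ n * y ^ n) := by gcongr
        _ = 8 * M * K * (W * y * t) ^ n := by rw [h9]; ring
        _ ≤ 8 * M * K * (6 * M) ^ n := by gcongr
    linarith
  · have hy6 : 6 * M ≤ y := by
      by_contra hcon
      push Not at hcon
      have := pow_lt_pow_left₀ hcon hy0.le (show (3 : ℕ) ≠ 0 by norm_num)
      linarith
    have h5 : t ≤ 4 * M / y := by
      refine h3.trans ?_
      apply div_le_div_of_nonneg_left (by positivity) hy0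
      nlinarith
    have h6 : 4 * M / y ≤ 1 := by
      rw [div_le_one hy0]
      linarith
    have h7 : t ^ (n - 1) ≤ (4 * M / y) ^ 3 := by
      refine (pow_le_pow_left₀ ht0.le h5 _).trans ?_
      exact pow_le_pow_of_le_one (by positivity) h6 (by omega)
    have h8 : (4 * M / y) ^ 3 * X ≤ 64 * M ^ 3 := by
      rw [div_pow, div_mul_eq_mul_div, div_le_iff₀ (by positivity)]
      have : 0 ≤ 64 * M ^ 3 := by positivity
      nlinarith
    have h9 : W * (A * B) ≤ 8 * M * K * W * t ^ n * (4 * M * Y * ε) := by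
      calc W * (A * B) = A * (W * B) := by ring
        _ ≤ 8 * M * K * W * t ^ n * (4 * M * Y * ε) := by
            apply mul_le_mul hA hB (by positivity) (by positivity)
    have h10 : t ^ n * Y = t ^ (n - 1) * X := by
      rw [hXt]
      have : t ^ n = t ^ (n - 1) * t := by
        rw [← pow_succ]
        congr 1
        omega
      rw [this]
      ring
    have h11 : W * 1 ≤ W * (32 * M ^ 2 * K * ε * (t ^ (n - 1) * X)) := by
      calc W * 1 ≤ W * (A * B) := by gcongr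
        _ ≤ 8 * M * K * W * t ^ n * (4 * M * Y * ε) := h9
        _ = W * (32 * M ^ 2 * K * ε * (t ^ n * Y)) := by ring
        _ = _ := by rw [h10]
    have h12 := le_of_mul_le_mul_left h11 hW0
    have h13 : t ^ (n - 1) * X ≤ 64 * M ^ 3 := (mul_le_mul_of_nonneg_right h7 hX0.le).trans h8
    have h14 : 32 * M ^ 2 * K * ε * (t ^ (n - 1) * X) ≤ 32 * M ^ 2 * K * ε * (64 * M ^ 3) := by gcongr
    have h15 : 32 * M ^ 2 * K * ε * (64 * M ^ 3) = 2048 * (M ^ 5 * K * ε) := by ring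
    have h16 : 10368 * M ^ 5 * K * ε = 10368 * (M ^ 5 * K * ε) := by ring
    have h17 : 0 < M ^ 5 * K * ε := by positivity
    linarith

/-- the case of a combination of the power of the old polynomial and of multiples of the new one -/
theorem case_two {n : ℕ} {M K W v X Y ε c₁ H q r u Q₀ Q₁ : ℝ} (hM : 1 ≤ M) (hK : 1 ≤ K) (hW : 1 ≤ W)
    (hX : 1 ≤ X) (hY : 1 ≤ Y) (hε : 0 < ε) (hε1 : ε ≤ 1) (hH : 1 ≤ H) (hu : 1 ≤ u) (hc : 1 ≤ c₁)
    (hXY : X ≤ c₁ * Y) (hv : X ^ n * v * W = 1) (hr0 : 0 ≤ r) (hr : r ≤ 2 * K / Y ^ (n + 1)) (hQ0 : Q₀ = u * v)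
    (hQ1 : Q₁ = u * W) (h1 : Q₀ ≤ q * r + M * Y * r ^ 2) (h2 : q * ε ≤ Q₁ + Q₀ + M * Y * ε ^ 2)
    (h3 : 2 * Y < X → X ≤ Y + u * H) (g1 : 6 * K * M * ε * W * 2 ^ n < 1)
    (g4 : 216 * M ^ 3 * K ^ 2 * W ^ 2 * c₁ ^ (n + 1) * H < ε * X) : False := by
  have hM0 : 0 < M := by linarith
  have hK0 : 0 < K := by linarith
  have hW0 : 0 < W := by linarith
  have hX0 : 0 < X := by linarith
  have hY0 : 0 < Y := by linarith
  have hu0 : 0 < u := by linarith
  have hc0 : 0 < c₁ := by linarith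
  have hH0 : 0 < H := by linarith
  obtain ⟨t, ht⟩ : ∃ t : ℝ, t = X / Y := ⟨_, rfl⟩
  have ht0 : 0 < t := by rw [ht]; positivity
  have hXt : X = t * Y := by rw [ht]; field_simp
  have htc : t ≤ c₁ := by
    rw [ht, div_le_iff₀ hY0]
    exact hXY
  have hXn : 1 ≤ X ^ n := one_le_pow₀ hX
  have hv0 : 0 < v := by
    by_contra hcon
    push Not at hcon
    have : X ^ n * v * W ≤ 0 := by
      apply mul_nonpos_of_nonpos_of_nonneg _ hW0.le
      exact mul_nonpos_of_nonneg_of_nonpos (by positivity) hcon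
    linarith
  have hvW : v ≤ W := by
    by_contra hcon
    push Not at hcon
    have h4 : 1 < X ^ n * v * W := by
      calc 1 ≤ W := hW
        _ < v := hcon
        _ = 1 * v * 1 := by ring
        _ ≤ X ^ n * v * W := by gcongr
    linarith
  -- the basic inequality
  have hq : q ≤ (2 * u * W + M * Y * ε ^ 2) / ε := by
    rw [le_div_iff₀ hε]
    rw [hQ0, hQ1] at h2
    have : u * v ≤ u * W := mul_le_mul_of_nonneg_left hvW hu0.le
    linarith
  have hYn : 0 < Y ^ (n + 1) := by positivity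
  have hr2 : r ^ 2 ≤ (2 * K / Y ^ (n + 1)) ^ 2 := pow_le_pow_left₀ hr0 hr 2
  have h4 : u * v ≤ (2 * u * W + M * Y * ε ^ 2) / ε * (2 * K / Y ^ (n + 1)) + M * Y * (2 * K / Y ^ (n + 1)) ^ 2 := by
    rw [hQ0] at h1
    refine h1.trans (add_le_add ?_ ?_)
    · exact (mul_le_mul_of_nonneg_right hq hr0).trans (mul_le_mul_of_nonneg_left hr (by positivity))
    · exact mul_le_mul_of_nonneg_left hr2 (by positivity)
  have h5 := mul_le_mul_of_nonneg_left h4 (show 0 ≤ X ^ n * W by positivity)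
  have e1 : X ^ n * W * (u * v) = u := by
    calc X ^ n * W * (u * v) = (X ^ n * v * W) * u := by ring
      _ = u := by rw [hv, one_mul]
  rw [e1] at h5
  have hXnt : X ^ n = t ^ n * Y ^ n := by rw [hXt, mul_pow]
  -- the first term
  have hfrac : X ^ n / Y ^ (n + 1) ≤ c₁ ^ (n + 1) / X := by
    rw [div_le_div_iff₀ hYn hX0, ← pow_succ, ← mul_pow]
    exact pow_le_pow_left₀ hX0.le hXY _
  have e2 : X ^ n * W * ((2 * u * W + M * Y * ε ^ 2) / ε * (2 * K / Y ^ (n + 1)) + M * Y * (2 * K / Y ^ (n + 1)) ^ 2) =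
      4 * K * W ^ 2 * u / ε * (X ^ n / Y ^ (n + 1)) + 2 * K * M * ε * W * t ^ n +
        4 * M * K ^ 2 * W * (Y / Y ^ (n + 1)) * (X ^ n / Y ^ (n + 1)) := by
    have e3 : t ^ n = X ^ n * (Y / Y ^ (n + 1)) := by
      rw [hXnt, pow_succ]
      field_simp
    rw [e3]
    field_simp
    ring
  rw [e2] at h5
  obtain ⟨L, hL⟩ : ∃ L : ℝ, L = M ^ 3 * K ^ 2 * W ^ 2 * c₁ ^ (n + 1) * H := ⟨_, rfl⟩
  have hcn : 1 ≤ c₁ ^ n := one_le_pow₀ hc
  have hcn1 : c₁ ^ n ≤ c₁ ^ (n + 1) := pow_le_pow_right₀ hc (by omega)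
  have hcn2 : 1 ≤ c₁ ^ (n + 1) := one_le_pow₀ hc
  have g4' : 216 * L < ε * X := by
    rw [hL]
    linarith
  have hL0 : 0 < L := by rw [hL]; positivity
  have hM3 : 1 ≤ M ^ 3 := one_le_pow₀ hM
  have hMM : M ≤ M ^ 3 := le_self_pow₀ hM (by norm_num)
  have hKK : K ≤ K ^ 2 := le_self_pow₀ hK (by norm_num)
  have hWW : W ≤ W ^ 2 := le_self_pow₀ hW (by norm_num)
  have hK2 : 1 ≤ K ^ 2 := one_le_pow₀ hK
  have hW2 : 1 ≤ W ^ 2 := one_le_pow₀ hW
  have L1 : K * W ^ 2 * c₁ ^ (n + 1) ≤ L := by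
    rw [hL]
    calc K * W ^ 2 * c₁ ^ (n + 1) = 1 * K * W ^ 2 * c₁ ^ (n + 1) * 1 := by ring
      _ ≤ M ^ 3 * K ^ 2 * W ^ 2 * c₁ ^ (n + 1) * H := by gcongr
  have L2 : M * K ^ 2 * W * c₁ ^ (n + 1) ≤ L := by
    rw [hL]
    calc M * K ^ 2 * W * c₁ ^ (n + 1) = M * K ^ 2 * W * c₁ ^ (n + 1) * 1 := by ring
      _ ≤ M ^ 3 * K ^ 2 * W ^ 2 * c₁ ^ (n + 1) * H := by gcongr
  have L3 : K * M * W * c₁ ^ n * H ≤ L := by
    rw [hL]
    calc K * M * W * c₁ ^ n * H = M * K * W * c₁ ^ n * H := by ring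
      _ ≤ M ^ 3 * K ^ 2 * W ^ 2 * c₁ ^ (n + 1) * H := by gcongr
  have T1 : 4 * K * W ^ 2 * u / ε * (X ^ n / Y ^ (n + 1)) ≤ u / 4 := by
    calc 4 * K * W ^ 2 * u / ε * (X ^ n / Y ^ (n + 1)) ≤ 4 * K * W ^ 2 * u / ε * (c₁ ^ (n + 1) / X) := by gcongr
      _ = 4 * (K * W ^ 2 * c₁ ^ (n + 1)) * u / (ε * X) := by field_simp
      _ ≤ u / 4 := by
          rw [div_le_iff₀ (by positivity)]
          nlinarith
  have T3 : 4 * M * K ^ 2 * W * (Y / Y ^ (n + 1)) * (X ^ n / Y ^ (n + 1)) ≤ u / 4 := by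
    have e4 : Y / Y ^ (n + 1) ≤ 1 := by
      rw [div_le_one hYn]
      exact le_self_pow₀ hY (by omega)
    calc 4 * M * K ^ 2 * W * (Y / Y ^ (n + 1)) * (X ^ n / Y ^ (n + 1))
        ≤ 4 * M * K ^ 2 * W * 1 * (c₁ ^ (n + 1) / X) := by gcongr
      _ = 4 * (M * K ^ 2 * W * c₁ ^ (n + 1)) / X := by ring
      _ ≤ 1 / 4 := by
          rw [div_le_iff₀ hX0]
          have : ε * X ≤ X := by nlinarith
          linarith
      _ ≤ u / 4 := by linarith
  have T2 : 2 * K * M * ε * W * t ^ n ≤ u / 3 := by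
    rcases le_or_gt X (2 * Y) with h6 | h6
    · have e5 : t ≤ 2 := by
        rw [ht, div_le_iff₀ hY0]
        exact h6
      have e6 : t ^ n ≤ 2 ^ n := pow_le_pow_left₀ ht0.le e5 n
      have e7 : 2 * K * M * ε * W * t ^ n ≤ 2 * K * M * ε * W * 2 ^ n := by gcongr
      linarith
    · have h7 := h3 h6
      have h8 : X / 2 ≤ u * H := by linarith
      have e6 : t ^ n ≤ c₁ ^ n := pow_le_pow_left₀ ht0.le htc n
      have e7 : 2 * K * M * ε * W * t ^ n ≤ 2 * K * M * 1 * W * c₁ ^ n := by gcongr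
      have e8 : 2 * K * M * 1 * W * c₁ ^ n * H ≤ u / 3 * H := by
        have : ε * X ≤ X := by nlinarith
        calc 2 * K * M * 1 * W * c₁ ^ n * H = 2 * (K * M * W * c₁ ^ n * H) := by ring
          _ ≤ 2 * L := by linarith
          _ ≤ X / 6 := by linarith
          _ ≤ u / 3 * H := by linarith
      exact e7.trans (le_of_mul_le_mul_right e8 hH0)
  linarith

end Pool.Agent.H595.ED
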