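import Pool.Agent.H595.ED.ED3a

/-!
# Algebraic numbers of exact degree near a root of the new quadratic polynomial
-/

set_option autoImplicit false

namespace Pool.Agent.H595.ED

open Polynomial

/-- an irreducible polynomial of degree at least three has no common root with a quadratic polynomial -/
theorem root_ne {Q : ℤ[X]} (hQ : Irreducible Q) (hd : 3 ≤ Q.natDegree) {a b c : ℤ} (ha : a ≠ 0) {x : ℝ}
    (hx : ev a b c x = 0) : aeval x Q ≠ 0 := by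
  intro h
  have h1 : Q ∣ qp a b c := dvd_of_root hQ (by omega) h (by rw [aeval_qp]; exact hx)
  have h2 := natDegree_le_of_dvd h1 (fun h0 => by
    have := natDegree_qp (b := b) (c := c) ha
    rw [h0, natDegree_zero] at this
    omega)
  rw [natDegree_qp ha] at h2
  omega

/-- Liouville's inequality for the old root -/
theorem liouv {n : ℕ} (hn : 4 ≤ n) {A B C' : ℤ} {σ σ' : ℝ} (hA : A ≠ 0) (hS : Rt A B C' σ σ')
    (hσ : |σ| ≤ 1) (hσ' : |σ'| ≤ 1) (hδ : (A : ℝ) * (σ - σ') ≠ 0) {Q : ℤ[X]} (hQ : Irreducible Q)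
    (hd : Q.natDegree = n) {Y : ℝ} (hY : ∀ i, |(Q.coeff i : ℝ)| ≤ Y) {α : ℝ} (hα : aeval α Q = 0) (hα1 : |α| ≤ 1) :
    1 ≤ |(A : ℝ)| ^ n * (((n : ℝ) + 1) ^ 3) ^ 2 * Y ^ 2 * |σ - α| := by
  have hY0 : 0 ≤ Y := (abs_nonneg _).trans (hY 0)
  have hM0 : 0 ≤ ((n : ℝ) + 1) ^ 3 := by positivity
  have h1 := poly_Io hS hd.le hd.le
  obtain ⟨x, y, e1, e2, e3⟩ := norm_form hS h1
  have hy : y = 0 := by
    have h2 : (y : ℝ) * (A * (σ - σ')) = 0 := by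
      have h3 : (A : ℝ) ^ n * (aeval σ Q * aeval σ' Q) = (A : ℝ) ^ n * (aeval σ' Q * aeval σ Q) := by ring
      rw [h3] at e1
      linarith
    rcases mul_eq_zero.1 h2 with h3 | h3
    · exact_mod_cast h3
    · exact absurd h3 hδ
  obtain ⟨u, hu, -⟩ := e3 hy
  have hne1 : aeval σ Q ≠ 0 := root_ne hQ (by omega) hA (ev_root hS)
  have hne2 : aeval σ' Q ≠ 0 := root_ne hQ (by omega) hA (ev_root hS.swap)
  have hAr : (A : ℝ) ≠ 0 := by exact_mod_cast hA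
  have hu0 : u ≠ 0 := by
    rintro rfl
    rw [Int.cast_zero] at hu
    exact (mul_ne_zero (pow_ne_zero n hAr) (mul_ne_zero hne1 hne2)) hu
  have hu1 : (1 : ℝ) ≤ |(u : ℝ)| := by
    rw [← Int.cast_abs]
    exact_mod_cast Int.one_le_abs hu0
  rw [← hu, abs_mul, abs_pow, abs_mul] at hu1
  have b1 := bd1 hd.le hY hα1 hσ
  rw [hα, sub_zero] at b1
  have b2 := bd0 hd.le hY hσ'
  calc 1 ≤ |(A : ℝ)| ^ n * (|aeval σ Q| * |aeval σ' Q|) := hu1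
    _ ≤ |(A : ℝ)| ^ n * ((((n : ℝ) + 1) ^ 3 * Y * |σ - α|) * (((n : ℝ) + 1) ^ 3 * Y)) := by gcongr
    _ = _ := by ring

/-- Taylor's formula -/
theorem taylor {n : ℕ} {Q : ℤ[X]} (hd : Q.natDegree = n) {Y : ℝ} (hY : ∀ i, |(Q.coeff i : ℝ)| ≤ Y)
    {α β β' r ε M : ℝ} (hM : M = ((n : ℝ) + 1) ^ 3) (hα : aeval α Q = 0) (hα1 : |α| ≤ 1) (hβ1 : |β| ≤ 1)
    (hβ' : |β'| ≤ 1) (hr : r = |β - α|) (hε : ε = |β - β'|) : ∃ q : ℝ, 0 ≤ q ∧ q ≤ M * Y ∧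
    |aeval β Q| ≤ q * r + M * Y * r ^ 2 ∧ q * ε ≤ |aeval β' Q| + |aeval β Q| + M * Y * ε ^ 2 ∧
    |aeval β' Q| ≤ M * Y * ε + |aeval β Q| := by
  have h2 : |α - β| = r := by rw [hr, abs_sub_comm]
  have h3 : (α - β) ^ 2 = r ^ 2 := by rw [← h2, sq_abs]
  have h4 : |β' - β| = ε := by rw [hε, abs_sub_comm]
  have h5 : (β' - β) ^ 2 = ε ^ 2 := by rw [← h4, sq_abs]
  refine ⟨|dv Q n β|, abs_nonneg _, ?_, ?_, ?_, ?_⟩
  · rw [hM]
    exact bdd hY hβ1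
  · have h1 := bd2 hd.le hY hβ1 hα1
    rw [hα, ← hM, h3] at h1
    have h6 := tri1 (aeval β Q) (dv Q n β * (α - β))
    rw [abs_mul, h2] at h6
    linarith
  · have h1 := bd2 hd.le hY hβ1 hβ'
    rw [← hM, h5] at h1
    have h6 := tri2 (aeval β' Q) (aeval β Q) (dv Q n β * (β' - β))
    rw [abs_mul (dv Q n β), h4] at h6
    linarith
  · have h1 := bd1 hd.le hY hβ1 hβ'
    rw [← hM, h4] at h1
    have h6 := tri3 (aeval β' Q) (aeval β Q)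
    linarith

/-- the leading coefficient of the multiple -/
theorem lead_bound {n s : ℕ} (hs : 2 ≤ s) (hn : n = 2 * s) {A B C' a b c : ℤ} {σ σ' β β' H : ℝ}
    (hA : A ≠ 0) (ha : a ≠ 0) (hS : Rt A B C' σ σ') (hP : Rt a b c β β')
    (hres : res A B C' a b c = 1 ∨ res A B C' a b c = -1)
    (hPirr : Irreducible (qp a b c)) (hHS : ∀ i, |(((qp A B C') ^ s).coeff i : ℝ)| ≤ H)
    {Q : ℤ[X]} (hQ : Irreducible Q) (hd : Q.natDegree = n) {Y : ℝ} (hY : ∀ i, |(Q.coeff i : ℝ)| ≤ Y) {u : ℤ}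
    (hu : (a : ℝ) ^ n * (aeval β Q * ev A B C' β' ^ s) = u) : |(a : ℝ)| ≤ Y + |(u : ℝ)| * H := by
  obtain ⟨ρ, hρ⟩ : ∃ ρ : ℤ, ρ = res A B C' a b c := ⟨_, rfl⟩
  have hρ2 : (ρ : ℝ) ^ 2 = 1 := by
    rw [hρ]
    rcases hres with h | h <;> rw [h] <;> norm_num
  have hρr : (ρ : ℝ) = (a : ℝ) ^ 2 * (ev A B C' β * ev A B C' β') := by
    rw [hρ]
    exact res_eq hP A B C'
  have hρs : (ρ : ℝ) ^ s = (a : ℝ) ^ n * (ev A B C' β ^ s * ev A B C' β' ^ s) := by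
    rw [hρr, mul_pow, mul_pow, hn, pow_mul]
  have hQval : aeval β Q = (ρ : ℝ) ^ s * u * ev A B C' β ^ s := by
    have h1 : aeval β Q * (ρ : ℝ) ^ s = ev A B C' β ^ s * u := by
      rw [hρs, ← hu]
      ring
    have h2 : (ρ : ℝ) ^ s * (ρ : ℝ) ^ s = 1 := by
      rw [← mul_pow, ← sq, hρ2, one_pow]
    calc aeval β Q = (aeval β Q * (ρ : ℝ) ^ s) * (ρ : ℝ) ^ s := by rw [mul_assoc, h2, mul_one]
      _ = (ev A B C' β ^ s * u) * (ρ : ℝ) ^ s := by rw [h1]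
      _ = _ := by ring
  obtain ⟨T, hT⟩ : ∃ T : ℤ[X], T = Q - Polynomial.C (ρ ^ s * u) * (qp A B C') ^ s := ⟨_, rfl⟩
  have hTβ : aeval β T = 0 := by
    rw [hT, map_sub, map_mul, map_pow, aeval_qp, aeval_C, hQval]
    simp
  have hT0 : T ≠ 0 := by
    intro h0
    have h1 : aeval σ T = aeval σ Q := by
      rw [hT, map_sub, map_mul, map_pow, aeval_qp, ev_root hS, zero_pow (by omega), mul_zero, sub_zero]
    rw [h0, map_zero] at h1
    exact root_ne hQ (by omega) hA (ev_root hS) h1.symm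
  have hdvd : qp a b c ∣ T := dvd_of_root hPirr (by rw [natDegree_qp ha]; norm_num)
    (by rw [aeval_qp]; exact ev_root hP) hTβ
  have hlc : a ∣ T.leadingCoeff := by
    obtain ⟨R, hR⟩ := hdvd
    rw [hR, leadingCoeff_mul, leadingCoeff_qp ha]
    exact dvd_mul_right _ _
  have hlc1 : |(a : ℝ)| ≤ |(T.leadingCoeff : ℝ)| := by
    have h1 := Int.le_of_dvd (abs_pos.2 (leadingCoeff_ne_zero.2 hT0)) ((abs_dvd_abs _ _).2 hlc)
    rw [← Int.cast_abs, ← Int.cast_abs]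
    exact_mod_cast h1
  have hlc2 : |(T.leadingCoeff : ℝ)| ≤ Y + |(u : ℝ)| * H := by
    have h1 : T.leadingCoeff = Q.coeff T.natDegree - ρ ^ s * u * ((qp A B C') ^ s).coeff T.natDegree := by
      have h0 : ∀ i, T.coeff i = Q.coeff i - ρ ^ s * u * ((qp A B C') ^ s).coeff i := by
        intro i
        rw [hT, coeff_sub, coeff_C_mul]
      exact h0 _
    rw [h1]
    push_cast
    refine (abs_sub _ _).trans (add_le_add (hY _) ?_)
    rw [abs_mul, abs_mul, abs_pow]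
    have h2 : |(ρ : ℝ)| = 1 := by
      have h3 : |(ρ : ℝ)| ^ 2 = 1 := by rw [sq_abs]; exact hρ2
      exact (pow_eq_one_iff_of_nonneg (abs_nonneg _) two_ne_zero).1 h3
    rw [h2, one_pow, one_mul]
    exact mul_le_mul_of_nonneg_left (hHS _) (abs_nonneg _)
  exact hlc1.trans hlc2

/-- the integers of the norm form -/
theorem int_form {D : ℤ} {δ z z' : ℝ} {x y : ℤ} (hδ : δ ^ 2 = D) (hy : y ≠ 0) (e1 : 2 * z = x + y * δ)
    (e2 : 2 * z' = x - y * δ) (hz : 0 < |z|) (hz' : 0 < |z'|) : ∃ x₁ y₁ : ℤ, 1 ≤ y₁ ∧ 2 * |z| = |x₁ + y₁ * δ| ∧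
    2 * y₁ * δ ≤ 2 * |z| + 2 * |z'| ∧ 1 ≤ 2 * |z| * (2 * |z'|) := by
  have f1 : 2 * |z| = |x + y * δ| := by rw [← e1, abs_mul, abs_two]
  have f2 : 2 * |z'| = |x - y * δ| := by rw [← e2, abs_mul, abs_two]
  have hprod : 1 ≤ 2 * |z| * (2 * |z'|) := by
    have h1 : ((x : ℝ) + y * δ) * (x - y * δ) = ((x ^ 2 - y ^ 2 * D : ℤ) : ℝ) := by
      have h2 : ((x : ℝ) + y * δ) * (x - y * δ) = x ^ 2 - y ^ 2 * δ ^ 2 := by ring
      rw [h2, hδ]
      push_cast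
      ring
    have h3 : (x ^ 2 - y ^ 2 * D : ℤ) ≠ 0 := by
      intro h0
      rw [h0, Int.cast_zero] at h1
      have h4 : 0 < 2 * |z| * (2 * |z'|) := by positivity
      rw [f1, f2, ← abs_mul, h1, abs_zero] at h4
      exact lt_irrefl _ h4
    rw [f1, f2, ← abs_mul, h1, ← Int.cast_abs]
    exact_mod_cast Int.one_le_abs h3
  rcases lt_or_gt_of_ne hy with h | h
  · have f1' : 2 * |z| = |((-x : ℤ) : ℝ) + ((-y : ℤ) : ℝ) * δ| := by
      rw [f1, ← abs_neg]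
      congr 1
      push_cast
      ring
    refine ⟨-x, -y, by omega, f1', ?_, hprod⟩
    rw [f1, f2]
    have h1 := neg_abs_le ((x : ℝ) + y * δ)
    have h2 := le_abs_self ((x : ℝ) - y * δ)
    push_cast
    linarith
  · refine ⟨x, y, by omega, f1, ?_, hprod⟩
    rw [f1, f2]
    have h1 := le_abs_self ((x : ℝ) + y * δ)
    have h2 := neg_abs_le ((x : ℝ) - y * δ)
    linarith

theorem good {n s : ℕ} (hs : 2 ≤ s) (hn : n = 2 * s) {A B C' a b c : ℤ} {σ σ' β β' K M H Y₁ : ℝ} (hK : 1 ≤ K)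
    (hM : M = ((n : ℝ) + 1) ^ 3) (hA : A ≠ 0) (ha : a ≠ 0) (hS : Rt A B C' σ σ') (hP : Rt a b c β β')
    (hσ : |σ| ≤ 1) (hσ' : |σ'| ≤ 1) (hβ : |β| ≤ 3 / 4) (hβ' : |β'| ≤ 1) (hδS : (A : ℝ) * (σ - σ') ≠ 0)
    (hδ : 0 < (a : ℝ) * (β - β')) (hres : res A B C' a b c = 1 ∨ res A B C' a b c = -1)
    (hPirr : Irreducible (qp a b c)) (hclose : |β - σ| ≤ 1 / (a : ℝ) ^ 2) (hV : 1 ≤ |ev A B C' β'|)
    (hε : |β - β'| ≤ 1) (hH : 1 ≤ H) (hHS : ∀ i, |(((qp A B C') ^ s).coeff i : ℝ)| ≤ H)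
    (g1 : 6 * K * M * |β - β'| * |ev A B C' β'| ^ s * 2 ^ n < 1) (g2 : 10368 * M ^ 5 * K * |β - β'| < 1)
    (g3 : ∀ x y : ℤ, 1 ≤ y → (y : ℝ) ^ 3 ≤ |(a : ℝ)| →
      8 * M * K * (6 * M) ^ n / (|ev A B C' β'| ^ s) ^ (n - 1) / (y : ℝ) ^ 4 < |x + y * ((a : ℝ) * (β - β'))|)
    (g4 : 216 * M ^ 3 * K ^ 2 * (|ev A B C' β'| ^ s) ^ 2 * (2 * |(A : ℝ)| ^ n * M ^ 2) ^ (n + 1) * H <
      |β - β'| * |(a : ℝ)|) (hY₁ : Y₁ = 8 * K * |(A : ℝ)| ^ n * M ^ 2) :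
    ∀ Q : ℤ[X], Irreducible Q → Q.natDegree = n → ∀ Y : ℝ, (∀ i, |(Q.coeff i : ℝ)| ≤ Y) → Y₁ ≤ Y →
      ∀ α : ℝ, aeval α Q = 0 → 2 * K / Y ^ (n + 1) < |β - α| := by
  intro Q hQ hd Y hY hYY α hα
  by_contra hcon
  push Not at hcon
  have hn4 : 4 ≤ n := by omega
  have hn0 : (0 : ℝ) ≤ n := Nat.cast_nonneg n
  have hM1 : 1 ≤ M := by
    rw [hM]
    exact one_le_pow₀ (by linarith only [hn0])
  have hA1 : (1 : ℝ) ≤ |(A : ℝ)| := by
    rw [← Int.cast_abs]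
    exact_mod_cast Int.one_le_abs hA
  have ha1 : (1 : ℝ) ≤ |(a : ℝ)| := by
    rw [← Int.cast_abs]
    exact_mod_cast Int.one_le_abs ha
  obtain ⟨L, hL⟩ : ∃ L : ℝ, L = |(A : ℝ)| ^ n * M ^ 2 := ⟨_, rfl⟩
  have hL1 : 1 ≤ L := by
    rw [hL]
    exact one_le_mul_of_one_le_of_one_le (one_le_pow₀ hA1) (one_le_pow₀ hM1)
  have hY8 : 8 * K * L ≤ Y := by
    refine le_trans (le_of_eq ?_) hYY
    rw [hY₁, hL]
    ring
  have hKL : K ≤ K * L := le_mul_of_one_le_right (by linarith only [hK]) hL1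
  have hY8K : 8 * K ≤ Y := by linarith only [hY8, hKL]
  have hY1 : 1 ≤ Y := by linarith only [hY8K, hK]
  have hY0 : 0 < Y := by linarith only [hY1]
  have hK0 : 0 < K := by linarith only [hK]
  obtain ⟨r, hr⟩ : ∃ r : ℝ, r = |β - α| := ⟨_, rfl⟩
  rw [← hr] at hcon
  have hr0 : 0 ≤ r := by rw [hr]; exact abs_nonneg _
  have hr4 : r ≤ 1 / 4 := by
    refine hcon.trans ?_
    rw [div_le_iff₀ (by positivity)]
    have : Y ≤ Y ^ (n + 1) := le_self_pow₀ hY1 (by omega)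
    linarith only [this, hY8K]
  have hα1 : |α| ≤ 1 := by
    have h1 := tri3 α β
    rw [abs_sub_comm, ← hr] at h1
    linarith only [h1, hr4, hβ]
  have hβ1 : |β| ≤ 1 := by linarith only [hβ]
  obtain ⟨X', hX'⟩ : ∃ X' : ℝ, X' = |(a : ℝ)| := ⟨_, rfl⟩
  obtain ⟨c₁, hc₁⟩ : ∃ c₁ : ℝ, c₁ = 2 * |(A : ℝ)| ^ n * M ^ 2 := ⟨_, rfl⟩
  have hc₁L : c₁ = 2 * L := by rw [hc₁, hL]; ring
  have hc1 : 1 ≤ c₁ := by linarith only [hc₁L, hL1]
  have hX0 : 0 < X' := by rw [hX']; linarith only [ha1]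
  have hX1 : 1 ≤ X' := by rw [hX']; exact ha1
  -- the height is at least of the order of `a`
  have hXY : X' ≤ c₁ * Y := by
    have h1 := liouv hn4 hA hS hσ hσ' hδS hQ hd hY hα hα1
    rw [← hM, ← hL] at h1
    have h2 : |σ - α| ≤ 1 / X' ^ 2 + r := by
      have := abs_sub_le σ β α
      rw [abs_sub_comm σ β] at this
      rw [hX', sq_abs, hr]
      linarith only [this, hclose]
    rw [hc₁L]
    exact height_ineq hn4 hK hL1 hY8 hX0 h1 h2 hcon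
  -- the resultant
  obtain ⟨v, hv⟩ : ∃ v : ℝ, v = |ev A B C' β| := ⟨_, rfl⟩
  obtain ⟨V, hVd⟩ : ∃ V : ℝ, V = |ev A B C' β'| := ⟨_, rfl⟩
  obtain ⟨ε, hεd⟩ : ∃ ε : ℝ, ε = |β - β'| := ⟨_, rfl⟩
  rw [← hVd] at hV g1 g3 g4
  rw [← hεd] at hε g1 g2 g4
  rw [← hX'] at g3 g4
  rw [← hc₁] at g4
  have hεX : (a : ℝ) * (β - β') = ε * X' := by
    rw [← abs_of_pos hδ, abs_mul, hεd, hX']
    ring
  rw [hεX] at hδ g3
  have hε0 : 0 < ε := pos_of_mul_pos_left hδ hX0.le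
  have hprod : X' ^ 2 * v * V = 1 := by
    have h1 := res_eq hP A B C'
    have h2 : |(res A B C' a b c : ℝ)| = 1 := by
      rcases hres with h | h <;> rw [h] <;> norm_num
    rw [h1, abs_mul, abs_pow, abs_mul, ← hX', ← hv, ← hVd] at h2
    rw [← h2]
    ring
  obtain ⟨W, hW⟩ : ∃ W : ℝ, W = V ^ s := ⟨_, rfl⟩
  have hW1 : 1 ≤ W := by rw [hW]; exact one_le_pow₀ hV
  have hW0 : 0 < W := by linarith only [hW1]
  rw [← hW] at g1 g3 g4
  have hvW : X' ^ n * v ^ s * W = 1 := by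
    rw [hW, hn, pow_mul, ← mul_pow, ← mul_pow, hprod, one_pow]
  have hv0 : 0 < v ^ s := by
    have h1 : 0 < X' ^ n * v ^ s * W := by rw [hvW]; exact one_pos
    have h2 := pos_of_mul_pos_left h1 hW0.le
    exact pos_of_mul_pos_right h2 (by positivity)
  -- the representation of the values
  have hSd : ((qp A B C') ^ s).natDegree ≤ n := by
    rw [natDegree_pow, natDegree_qp hA, hn, mul_comm]
  have hio := poly_Io hP hd.le hSd
  rw [map_pow, map_pow, aeval_qp, aeval_qp] at hio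
  obtain ⟨x, y, e1, e2, e3⟩ := norm_form hP hio
  rw [hεX] at e1 e2
  obtain ⟨z, hz⟩ : ∃ z : ℝ, z = (a : ℝ) ^ n * (aeval β Q * ev A B C' β' ^ s) := ⟨_, rfl⟩
  obtain ⟨z', hz'⟩ : ∃ z' : ℝ, z' = (a : ℝ) ^ n * (aeval β' Q * ev A B C' β ^ s) := ⟨_, rfl⟩
  rw [← hz] at e1 e3
  rw [← hz'] at e2 e3
  have hz1 : |z| = X' ^ n * (|aeval β Q| * W) := by
    rw [hz, abs_mul, abs_pow, abs_mul, abs_pow, ← hX', ← hVd, ← hW]
  have hz2 : |z'| = X' ^ n * (|aeval β' Q| * v ^ s) := by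
    rw [hz', abs_mul, abs_pow, abs_mul, abs_pow, ← hX', ← hv]
  have hQβ : aeval β Q ≠ 0 := root_ne hQ (by omega) ha (ev_root hP)
  have hQβ' : aeval β' Q ≠ 0 := root_ne hQ (by omega) ha (ev_root hP.swap)
  have hq0 : 0 < |aeval β Q| := abs_pos.2 hQβ
  have hq1 : 0 < |aeval β' Q| := abs_pos.2 hQβ'
  have hXn : 0 < X' ^ n := pow_pos hX0 n
  have hz10 : 0 < |z| := by rw [hz1]; exact mul_pos hXn (mul_pos hq0 hW0)
  have hz20 : 0 < |z'| := by rw [hz2]; exact mul_pos hXn (mul_pos hq1 hv0)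
  have hzv : |aeval β Q| = |z| * v ^ s := by
    rw [hz1]
    calc |aeval β Q| = |aeval β Q| * (X' ^ n * v ^ s * W) := by rw [hvW, mul_one]
      _ = _ := by ring
  have hzV : |aeval β' Q| = |z'| * W := by
    rw [hz2]
    calc |aeval β' Q| = |aeval β' Q| * (X' ^ n * v ^ s * W) := by rw [hvW, mul_one]
      _ = _ := by ring
  -- Taylor's formula
  obtain ⟨q, hq_nn, hqM, t1, t2, t4⟩ := taylor hd hY hM hα hα1 hβ1 hβ' hr hεd
  by_cases hy : y = 0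
  · -- the polynomial is a combination of the power and of a multiple
    obtain ⟨u, hu, hu'⟩ := e3 hy
    have hu0 : u ≠ 0 := by
      rintro rfl
      rw [hu, Int.cast_zero, abs_zero] at hz10
      exact lt_irrefl _ hz10
    have hu1 : (1 : ℝ) ≤ |(u : ℝ)| := by
      rw [← Int.cast_abs]
      exact_mod_cast Int.one_le_abs hu0
    have hl := lead_bound hs hn hA ha hS hP hres hPirr hHS hQ hd hY (u := u) (by rw [← hz, hu])
    rw [← hX'] at hl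
    exact case_two (n := n) (M := M) (K := K) (W := W) (v := v ^ s) (X := X') (Y := Y) (ε := ε) (c₁ := c₁) (H := H)
      (q := q) (r := r) (u := |(u : ℝ)|) (Q₀ := |aeval β Q|) (Q₁ := |aeval β' Q|) hM1 hK hW1 hX1 hY1 hε0 hε hH hu1
      hc1 hXY hvW hr0 hcon (by rw [hzv, hu]) (by rw [hzV, hu']) t1 t2 (fun _ => hl) g1 g4
  · -- the polynomial is independent
    have hsq : (ε * X') ^ 2 = ((b ^ 2 - 4 * a * c : ℤ) : ℝ) := by
      rw [← hεX]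
      exact sq_disc hP
    obtain ⟨x₁, y₁, hy1, a1, a2, a3⟩ := int_form hsq hy e1 e2 hz10 hz20
    have hy1r : (1 : ℝ) ≤ y₁ := by exact_mod_cast hy1
    exact case_one' (n := n) hn4 (M := M) (K := K) (W := W) (X := X') (Y := Y) (ε := ε) (c₁ := c₁) (H := H) (q := q)
      (r := r) (Q₀ := |aeval β Q|) (Q₁ := |aeval β' Q|) (Z := |z|) (Z' := |z'|) (y := y₁) hM1 hK hW1 hX1 hY1 hε0 hε
      hH hc1 hXY hr0 hcon hr4 hqM t1 t4 hz1 hzV hz10.le hz20.le hy1r a2 a3 g2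
      (fun h1 => by rw [a1]; exact g3 x₁ y₁ hy1 h1) g4

end Pool.Agent.H595.ED
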