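import Pool.Agent.H595.ED.ED2

/-!
# Auxiliary inequalities
-/

set_option autoImplicit false

namespace Pool.Agent.H595.ED

open Polynomial

theorem tri1 (a b : ℝ) : |a| ≤ |0 - a - b| + |b| := by
  have h := abs_add_le (-(0 - a - b)) (-b)
  rw [abs_neg, abs_neg] at h
  have e : -(0 - a - b) + -b = a := by ring
  rwa [e] at h

theorem tri2 (a b c : ℝ) : |c| ≤ |a - b - c| + (|a| + |b|) := by
  have h := abs_add_le (-(a - b - c)) (a - b)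
  rw [abs_neg] at h
  have e : -(a - b - c) + (a - b) = c := by ring
  rw [e] at h
  have h2 : |a - b| ≤ |a| + |b| := abs_sub _ _
  linarith

theorem tri3 (a b : ℝ) : |a| ≤ |a - b| + |b| := by
  have := abs_sub_abs_le_abs_sub a b
  linarith

/-- the height is at least of the order of the leading coefficient -/
theorem height_ineq {n : ℕ} (hn : 4 ≤ n) {K L X Y r w : ℝ} (hK : 1 ≤ K) (hL : 1 ≤ L) (hY : 8 * K * L ≤ Y)
    (hX : 0 < X) (h1 : 1 ≤ L * Y ^ 2 * w) (h2 : w ≤ 1 / X ^ 2 + r) (hr : r ≤ 2 * K / Y ^ (n + 1)) :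
    X ≤ 2 * L * Y := by
  have hKL : 8 ≤ 8 * K * L := by nlinarith
  have hY1 : 1 ≤ Y := by linarith
  have hY0 : 0 < Y := by linarith
  have hL0 : 0 < L := by linarith
  have h3 : L * Y ^ 2 * r ≤ 1 / 4 := by
    have h4 : L * Y ^ 2 * r ≤ L * Y ^ 2 * (2 * K / Y ^ (n + 1)) :=
      mul_le_mul_of_nonneg_left hr (by positivity)
    refine h4.trans ?_
    rw [mul_div_assoc', div_le_iff₀ (by positivity)]
    have h5 : Y ^ 2 * Y ≤ Y ^ (n + 1) := by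
      rw [← pow_succ]
      exact pow_le_pow_right₀ hY1 (by omega)
    have h7 : 0 ≤ Y ^ 2 := by positivity
    have h8 := mul_le_mul_of_nonneg_left hY h7
    linarith
  have h4 : 3 / 4 ≤ L * Y ^ 2 * (1 / X ^ 2) := by
    have h5 : L * Y ^ 2 * w ≤ L * Y ^ 2 * (1 / X ^ 2 + r) :=
      mul_le_mul_of_nonneg_left h2 (by positivity)
    rw [mul_add] at h5
    linarith
  rw [mul_one_div, le_div_iff₀ (by positivity)] at h4
  have h5 : X ^ 2 ≤ (2 * L * Y) ^ 2 := by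
    have h7 : L * Y ^ 2 ≤ L ^ 2 * Y ^ 2 := by
      apply mul_le_mul_of_nonneg_right _ (by positivity)
      exact le_self_pow₀ hL (by norm_num)
    have h8 : 0 < L * Y ^ 2 := by positivity
    have h9 : (2 * L * Y) ^ 2 = 4 * (L ^ 2 * Y ^ 2) := by ring
    rw [h9]
    linarith
  exact le_of_sq_le_sq h5 (by positivity)

theorem big_prod {n : ℕ} {M K W c₁ H : ℝ} (hM : 1 ≤ M) (hK : 1 ≤ K) (hW : 1 ≤ W) (hH : 1 ≤ H) (hc : 1 ≤ c₁) :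
    M * K * W * c₁ ^ n ≤ M ^ 3 * K ^ 2 * W ^ 2 * c₁ ^ (n + 1) * H ∧
    K * c₁ ≤ M ^ 3 * K ^ 2 * W ^ 2 * c₁ ^ (n + 1) * H ∧ M ^ 3 ≤ M ^ 3 * K ^ 2 * W ^ 2 * c₁ ^ (n + 1) * H := by
  have hM0 : 0 < M := by linarith
  have hK0 : 0 < K := by linarith
  have hW0 : 0 < W := by linarith
  have hc0 : 0 < c₁ := by linarith
  have hH0 : 0 < H := by linarith
  have hcn1 : c₁ ^ n ≤ c₁ ^ (n + 1) := pow_le_pow_right₀ hc (by omega)
  have hMM : M ≤ M ^ 3 := le_self_pow₀ hM (by norm_num)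
  have hKK : K ≤ K ^ 2 := le_self_pow₀ hK (by norm_num)
  have hWW : W ≤ W ^ 2 := le_self_pow₀ hW (by norm_num)
  have hM3 : 1 ≤ M ^ 3 := one_le_pow₀ hM
  have hK2 : 1 ≤ K ^ 2 := one_le_pow₀ hK
  have hW2 : 1 ≤ W ^ 2 := one_le_pow₀ hW
  have hc2 : 1 ≤ c₁ ^ (n + 1) := one_le_pow₀ hc
  have hcc : c₁ ≤ c₁ ^ (n + 1) := le_self_pow₀ hc (by omega)
  refine ⟨?_, ?_, ?_⟩
  · calc M * K * W * c₁ ^ n = M * K * W * c₁ ^ n * 1 := by ring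
      _ ≤ M ^ 3 * K ^ 2 * W ^ 2 * c₁ ^ (n + 1) * H := by gcongr
  · calc K * c₁ = 1 * K * 1 * c₁ * 1 := by ring
      _ ≤ M ^ 3 * K ^ 2 * W ^ 2 * c₁ ^ (n + 1) * H := by gcongr
  · calc M ^ 3 = M ^ 3 * 1 * 1 * 1 * 1 := by ring
      _ ≤ M ^ 3 * K ^ 2 * W ^ 2 * c₁ ^ (n + 1) * H := by gcongr

theorem t3_ineq {n : ℕ} {M K Y q r Q₀ : ℝ} (hM : 1 ≤ M) (hY : 1 ≤ Y) (hK : 1 ≤ K)
    (hr0 : 0 ≤ r) (hr4 : r ≤ 1 / 4) (hr : r ≤ 2 * K / Y ^ (n + 1)) (hqM : q ≤ M * Y)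
    (t1 : Q₀ ≤ q * r + M * Y * r ^ 2) : Q₀ ≤ 4 * M * K / Y ^ n := by
  have hY0 : 0 < Y := by linarith
  have hMY : 0 ≤ M * Y := by nlinarith
  have h1 : r ^ 2 ≤ r := by nlinarith
  have h2 : q * r ≤ M * Y * r := mul_le_mul_of_nonneg_right hqM hr0
  have h3 : M * Y * r ^ 2 ≤ M * Y * r := mul_le_mul_of_nonneg_left h1 hMY
  have h4 : M * Y * r ≤ M * Y * (2 * K / Y ^ (n + 1)) := mul_le_mul_of_nonneg_left hr hMY
  have h5 : M * Y * (2 * K / Y ^ (n + 1)) = 2 * M * K / Y ^ n := by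
    rw [pow_succ]
    field_simp
  have h6 : 4 * M * K / Y ^ n = 2 * (2 * M * K / Y ^ n) := by ring
  linarith

theorem t4_ineq {n : ℕ} {M K Y ε Q₀ Q₁ : ℝ} (hM : 1 ≤ M) (hK : 1 ≤ K) (hY : 1 ≤ Y) (hε : 0 < ε)
    (hεY : 4 * K ≤ ε * Y) (t3 : Q₀ ≤ 4 * M * K / Y ^ n) (h : Q₁ ≤ M * Y * ε + Q₀) : Q₁ ≤ 2 * M * Y * ε := by
  have h4 : 4 * M * K / Y ^ n ≤ M * Y * ε := by
    rw [div_le_iff₀ (by positivity)]
    have h5 : 1 ≤ Y ^ n := one_le_pow₀ hY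
    have h6 : M * (4 * K) ≤ M * (ε * Y) := mul_le_mul_of_nonneg_left hεY (by linarith)
    have h7 : M * (ε * Y) * 1 ≤ M * (ε * Y) * Y ^ n := mul_le_mul_of_nonneg_left h5 (by positivity)
    linarith
  linarith

theorem case_one' {n : ℕ} (hn : 4 ≤ n) {M K W X Y ε c₁ H q r Q₀ Q₁ Z Z' y : ℝ} (hM : 1 ≤ M) (hK : 1 ≤ K)
    (hW : 1 ≤ W) (hX : 1 ≤ X) (hY : 1 ≤ Y) (hε : 0 < ε) (hε1 : ε ≤ 1) (hH : 1 ≤ H) (hc : 1 ≤ c₁)
    (hXY : X ≤ c₁ * Y) (hr0 : 0 ≤ r) (hr : r ≤ 2 * K / Y ^ (n + 1)) (hr4 : r ≤ 1 / 4) (hqM : q ≤ M * Y)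
    (t1 : Q₀ ≤ q * r + M * Y * r ^ 2) (hQ1 : Q₁ ≤ M * Y * ε + Q₀) (hZ : Z = X ^ n * (Q₀ * W)) (hZ' : Q₁ = Z' * W)
    (hZ0 : 0 ≤ Z) (hZ0' : 0 ≤ Z') (hy : 1 ≤ y) (hsum : 2 * y * (ε * X) ≤ 2 * Z + 2 * Z')
    (hprod : 1 ≤ 2 * Z * (2 * Z')) (g2 : 10368 * M ^ 5 * K * ε < 1)
    (g3 : y ^ 3 ≤ X → 8 * M * K * (6 * M) ^ n / W ^ (n - 1) / y ^ 4 < 2 * Z)
    (g4 : 216 * M ^ 3 * K ^ 2 * W ^ 2 * c₁ ^ (n + 1) * H < ε * X) : False := by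
  have hM0 : 0 < M := by linarith
  have hK0 : 0 < K := by linarith
  have hW0 : 0 < W := by linarith
  have hX0 : 0 < X := by linarith
  have hY0 : 0 < Y := by linarith
  obtain ⟨L1, L2, L3⟩ := big_prod (n := n) hM hK hW hH hc
  have t3 := t3_ineq (n := n) hM hY hK hr0 hr4 hr hqM t1
  have hεY : 4 * K ≤ ε * Y := by
    have h1 : ε * X ≤ c₁ * (ε * Y) := by nlinarith
    have h3 : K * c₁ * 216 ≤ 216 * M ^ 3 * K ^ 2 * W ^ 2 * c₁ ^ (n + 1) * H := by linarith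
    have h4 : 0 < K * c₁ := by nlinarith
    have h2 : c₁ * (4 * K) < c₁ * (ε * Y) := by linarith
    exact (lt_of_mul_lt_mul_left h2 (by linarith)).le
  have t4 := t4_ineq (n := n) hM hK hY hε hεY t3 hQ1
  have hεXX : ε * X ≤ X := by nlinarith
  have k1 : (6 * M) ^ 3 ≤ X := by
    have h6 : (6 * M) ^ 3 = 216 * M ^ 3 := by ring
    rw [h6]
    linarith
  have k2 : 8 * M * K * W * c₁ ^ n < ε * X := by
    have h7 : 0 < M * K * W * c₁ ^ n := by positivity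
    linarith
  have k3 : 2 * Z ≤ 8 * M * K * W * (X / Y) ^ n := by
    rw [hZ, div_pow]
    have h8 : Q₀ * W ≤ 4 * M * K / Y ^ n * W := mul_le_mul_of_nonneg_right t3 hW0.le
    have h9 : X ^ n * (Q₀ * W) ≤ X ^ n * (4 * M * K / Y ^ n * W) := mul_le_mul_of_nonneg_left h8 (by positivity)
    have h10 : 8 * M * K * W * (X ^ n / Y ^ n) = 2 * (X ^ n * (4 * M * K / Y ^ n * W)) := by ring
    rw [h10]
    linarith
  have k4 : W * (2 * Z') ≤ 4 * M * Y * ε := by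
    have : W * (2 * Z') = 2 * Q₁ := by rw [hZ']; ring
    rw [this]
    linarith
  exact case_one (n := n) hn (M := M) (K := K) (W := W) (X := X) (Y := Y) (ε := ε) (c₁ := c₁) (A := 2 * Z)
      (B := 2 * Z') (y := y) hM hK hW k1 hY0 hε hy hXY k3 k4 hsum k2 hprod (by linarith) (by linarith) g2 g3

end Pool.Agent.H595.ED
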