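import Mathlib

/-!
# Choosing the bilinear invariant of two successive quadratic polynomials
-/

set_option autoImplicit false

namespace Pool.Agent.H595.ED

/-- separated numbers of a short interval -/
theorem sep_count (B : Finset ℤ) (f : ℤ → ℝ) {δ η : ℝ} (hη : 0 < η) (hδ : 0 ≤ δ) (hf : ∀ k ∈ B, |f k| ≤ δ)
    (hsep : ∀ k ∈ B, ∀ k' ∈ B, k ≠ k' → η ≤ |f k - f k'|) : (B.card : ℝ) ≤ 2 * δ / η + 1 := by
  have h0 : (0 : ℝ) ≤ 2 * δ / η := by positivity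
  have hmaps : Set.MapsTo (fun k => ⌊(f k + δ) / η⌋) (B : Set ℤ) (Finset.Icc (0 : ℤ) ⌊2 * δ / η⌋ : Finset ℤ) := by
    intro k hk
    have h1 := abs_le.1 (hf k hk)
    rw [Finset.coe_Icc, Set.mem_Icc]
    refine ⟨Int.floor_nonneg.2 (div_nonneg (by linarith) hη.le), Int.floor_le_floor ?_⟩
    exact div_le_div_of_nonneg_right (by linarith) hη.le
  have hinj : Set.InjOn (fun k => ⌊(f k + δ) / η⌋) (B : Set ℤ) := by
    intro k hk k' hk' h
    by_contra hne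
    have h1 := hsep k hk k' hk' hne
    have h2 : |(f k + δ) / η - (f k' + δ) / η| < 1 := Int.abs_sub_lt_one_of_floor_eq_floor h
    rw [← sub_div, abs_div, abs_of_pos hη, div_lt_one hη] at h2
    have h3 : f k + δ - (f k' + δ) = f k - f k' := by ring
    rw [h3] at h2
    linarith
  have hcard := Finset.card_le_card_of_injOn _ hmaps hinj
  rw [Int.card_Icc] at hcard
  have h1 : (0 : ℤ) ≤ ⌊2 * δ / η⌋ := Int.floor_nonneg.2 h0
  have h2 : (B.card : ℤ) ≤ ⌊2 * δ / η⌋ + 1 := by omega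
  have h3 : (B.card : ℝ) ≤ ⌊2 * δ / η⌋ + 1 := by exact_mod_cast h2
  linarith [Int.floor_le (2 * δ / η)]

theorem sum_cube (N : ℕ) : ∑ y ∈ Finset.Icc 1 N, (1 : ℝ) / (y : ℝ) ^ 3 ≤ 2 := by
  have h : ∀ N : ℕ, ∑ y ∈ Finset.Icc 1 (N + 1), (1 : ℝ) / (y : ℝ) ^ 3 ≤ 2 - 1 / ((N : ℝ) + 1) := by
    intro N
    induction N with
    | zero => norm_num
    | succ N ih =>
      rw [Finset.sum_Icc_succ_top (by omega)]
      refine (add_le_add_left ih _).trans ?_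
      have hN : (0 : ℝ) ≤ N := Nat.cast_nonneg N
      have h1 : (1 : ℝ) / ((N + 1 + 1 : ℕ) : ℝ) ^ 3 ≤ 1 / ((N : ℝ) + 1) - 1 / ((N : ℝ) + 1 + 1) := by
        rw [div_sub_div _ _ (by positivity) (by positivity), div_le_div_iff₀ (by positivity) (by positivity)]
        push_cast
        nlinarith [pow_nonneg hN 2, pow_nonneg hN 3]
      push_cast at h1 ⊢
      linarith
  rcases N with _ | N
  · simp
  · have h1 := h N
    have h2 : (0 : ℝ) ≤ 1 / ((N : ℝ) + 1) := by positivity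
    linarith

theorem sum_sq (N : ℕ) : ∑ y ∈ Finset.Icc 1 N, (y : ℝ) ^ 2 ≤ (N : ℝ) ^ 3 := by
  refine (Finset.sum_le_card_nsmul _ _ ((N : ℝ) ^ 2) fun y hy => ?_).trans ?_
  · rw [Finset.mem_Icc] at hy
    have : (y : ℝ) ≤ N := by exact_mod_cast hy.2
    exact pow_le_pow_left₀ (Nat.cast_nonneg y) this 2
  · rw [Nat.card_Icc, nsmul_eq_mul]
    have : (((N + 1 - 1 : ℕ)) : ℝ) = N := by simp
    rw [this]
    apply le_of_eq
    ring

/-- the values are separated -/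
theorem sep {Δ : ℤ} (hΔ : 0 < Δ) (hsq : ¬ IsSquare Δ) {w J y : ℝ} (hw : 0 < w) (hw2 : w ^ 2 = Δ) (hJ : 8 * (Δ : ℝ) ≤ J)
    {m h t : ℤ} (hy : 1 ≤ y) (ht : t ≠ 0) (hh : (h : ℝ) = y * t) (htJ : |(t : ℝ)| * Δ ≤ J) :
    w / (3 * y * J) ≤ |(m : ℝ) + h * w| := by
  have hΔ1 : (1 : ℝ) ≤ Δ := by exact_mod_cast hΔ
  have hJ0 : 0 < J := by linarith
  have hy0 : 0 < y := by linarith
  by_contra hcon
  push Not at hcon
  have hh0 : h ≠ 0 := by
    intro h0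
    rw [h0, Int.cast_zero] at hh
    have : (t : ℝ) = 0 := by
      rcases mul_eq_zero.1 hh.symm with h1 | h1
      · linarith
      · exact h1
    exact ht (by exact_mod_cast this)
  have hnorm : (m ^ 2 - h ^ 2 * Δ : ℤ) ≠ 0 := by
    intro h0
    apply hsq
    have h1 : m ^ 2 = h ^ 2 * Δ := by omega
    have h2 : h ∣ m := by
      rw [← Int.pow_dvd_pow_iff (n := 2) two_ne_zero, h1]
      exact dvd_mul_right _ _
    obtain ⟨g, hg⟩ := h2
    refine ⟨g, ?_⟩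
    have h3 : h ^ 2 * (g * g) = h ^ 2 * Δ := by rw [← h1, hg]; ring
    exact (mul_left_cancel₀ (pow_ne_zero 2 hh0) h3).symm
  have hnorm1 : (1 : ℝ) ≤ |((m ^ 2 - h ^ 2 * Δ : ℤ) : ℝ)| := by
    rw [← Int.cast_abs]
    exact_mod_cast Int.one_le_abs hnorm
  have hfac : ((m ^ 2 - h ^ 2 * Δ : ℤ) : ℝ) = (m + h * w) * (m - h * w) := by
    push_cast
    rw [← hw2]
    ring
  rw [hfac, abs_mul] at hnorm1
  have hhw : |(h : ℝ)| * w ≤ y * J / w := by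
    rw [le_div_iff₀ hw, hh, abs_mul, abs_of_pos hy0]
    have : y * |(t : ℝ)| * w * w = y * (|(t : ℝ)| * Δ) := by rw [← hw2]; ring
    rw [this]
    exact mul_le_mul_of_nonneg_left htJ hy0.le
  have hη : w / (3 * y * J) ≤ y * J / w := by
    rw [div_le_div_iff₀ (by positivity) hw]
    have h1 : w * w = Δ := by rw [← hw2]; ring
    rw [h1]
    have h2 : (Δ : ℝ) ≤ J := by linarith
    have h3 : 1 ≤ J := by linarith
    have h4 : 1 ≤ y * y := by nlinarith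
    have h5 : J ≤ J * J := by nlinarith
    nlinarith [mul_le_mul_of_nonneg_right h4 (mul_pos hJ0 hJ0).le]
  have htri : |(m : ℝ) - h * w| ≤ |(m : ℝ) + h * w| + 2 * (|(h : ℝ)| * w) := by
    have h1 : (m : ℝ) - h * w = (m + h * w) + -(2 * (h * w)) := by ring
    rw [h1]
    refine (abs_add_le _ _).trans ?_
    rw [abs_neg, abs_mul, abs_mul, abs_two, abs_of_pos hw]
  have hlt : |(m : ℝ) - h * w| < 3 * (y * J / w) := by linarith
  have h1 : |(m : ℝ) + h * w| * |(m : ℝ) - h * w| < w / (3 * y * J) * (3 * (y * J / w)) := by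
    apply mul_lt_mul'' hcon hlt (abs_nonneg _) (abs_nonneg _)
  have h2 : w / (3 * y * J) * (3 * (y * J / w)) = 1 := by
    field_simp
  linarith

theorem exists_E {Δ e₀ : ℤ} (hΔ : 0 < Δ) (hsq : ¬ IsSquare Δ) {w κ J : ℝ} (hw : 0 < w) (hw2 : w ^ 2 = Δ)
    (hκ0 : 0 ≤ κ) (hκ : 48 * κ * w ≤ 1) (hJ1 : 64 * (Δ : ℝ) ^ 3 < J ^ 2) (hJ : 8 * (Δ : ℝ) ≤ J) :
    ∃ k : ℤ, J ≤ ((Δ * k + e₀ : ℤ) : ℝ) ∧ ((Δ * k + e₀ : ℤ) : ℝ) ≤ 2 * J ∧
      ∀ x y : ℤ, 1 ≤ y → 192 * (y : ℝ) ^ 3 ≤ J →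
        κ / (y : ℝ) ^ 4 + 4 * y / (w * J) < |x + y * (((Δ * k + e₀ : ℤ) : ℝ) / w)| := by
  classical
  have hΔ1 : (1 : ℝ) ≤ Δ := by exact_mod_cast hΔ
  have hΔ0 : (0 : ℝ) < Δ := by linarith
  have hJ0 : 0 < J := by linarith
  by_contra hcon
  push Not at hcon
  obtain ⟨T, hT⟩ : ∃ T : Finset ℤ, T = Finset.Icc ⌈(J - e₀) / Δ⌉ ⌊(2 * J - e₀) / Δ⌋ := ⟨_, rfl⟩
  have hTm : ∀ k ∈ T, J ≤ ((Δ * k + e₀ : ℤ) : ℝ) ∧ ((Δ * k + e₀ : ℤ) : ℝ) ≤ 2 * J := by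
    intro k hk
    rw [hT, Finset.mem_Icc, Int.ceil_le, Int.le_floor, div_le_iff₀ hΔ0, le_div_iff₀ hΔ0] at hk
    push_cast
    constructor <;> linarith
  have hTc : J / Δ - 1 ≤ (T.card : ℝ) := by
    rw [hT, Int.card_Icc]
    have h1 : (⌊(2 * J - e₀) / Δ⌋ + 1 - ⌈(J - e₀) / Δ⌉ : ℤ) ≤
        ((⌊(2 * J - e₀) / Δ⌋ + 1 - ⌈(J - e₀) / Δ⌉).toNat : ℤ) := Int.self_le_toNat _
    have h2 : ((⌊(2 * J - e₀) / Δ⌋ + 1 - ⌈(J - e₀) / Δ⌉ : ℤ) : ℝ) ≤
        ((⌊(2 * J - e₀) / Δ⌋ + 1 - ⌈(J - e₀) / Δ⌉).toNat : ℝ) := by exact_mod_cast h1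
    refine le_trans ?_ h2
    push_cast
    have h3 := Int.lt_floor_add_one ((2 * J - e₀) / (Δ : ℝ))
    have h4 := Int.ceil_lt_add_one ((J - e₀) / (Δ : ℝ))
    have h5 : (2 * J - e₀) / (Δ : ℝ) = J / Δ + (J - e₀) / Δ := by ring
    linarith
  obtain ⟨r, hr0, hr3⟩ : ∃ r : ℝ, 0 ≤ r ∧ r ^ 3 = J / 192 := by
    refine ⟨(J / 192) ^ ((1 : ℝ) / 3), by positivity, ?_⟩
    rw [← Real.rpow_natCast, ← Real.rpow_mul (by positivity)]
    norm_num
  obtain ⟨N, hN⟩ : ∃ N : ℕ, N = ⌊r⌋₊ := ⟨_, rfl⟩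
  have hNr : (N : ℝ) ≤ r := by rw [hN]; exact Nat.floor_le hr0
  have hN3 : (N : ℝ) ^ 3 ≤ J / 192 := by
    rw [← hr3]
    exact pow_le_pow_left₀ (Nat.cast_nonneg N) hNr 3
  obtain ⟨B, hB⟩ : ∃ B : ℕ → Finset ℤ, B = fun y : ℕ => T.filter (fun k => ∃ x : ℤ,
      |(x : ℝ) + (y : ℝ) * (((Δ * k + e₀ : ℤ) : ℝ) / w)| ≤ κ / (y : ℝ) ^ 4 + 4 * (y : ℝ) / (w * J)) := ⟨_, rfl⟩
  have hcov : T ⊆ (Finset.Icc 1 N).biUnion B := by
    intro k hk
    obtain ⟨h1, h2⟩ := hTm k hk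
    obtain ⟨x, y, hy, hy3, hxy⟩ := hcon k h1 h2
    obtain ⟨y', rfl⟩ : ∃ y' : ℕ, y = y' := ⟨y.toNat, by omega⟩
    rw [Finset.mem_biUnion]
    refine ⟨y', ?_, ?_⟩
    · rw [Finset.mem_Icc]
      refine ⟨by omega, ?_⟩
      rw [hN]
      apply Nat.le_floor
      have h3 : (y' : ℝ) ^ 3 ≤ r ^ 3 := by
        rw [hr3]
        push_cast at hy3
        linarith
      exact le_of_pow_le_pow_left₀ (by norm_num) hr0 h3
    · rw [hB]
      simp only [Finset.mem_filter]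
      exact ⟨hk, x, by exact_mod_cast hxy⟩
  have hcount : ∀ y ∈ Finset.Icc 1 N, ((B y).card : ℝ) ≤
      6 * J * κ / w * (1 / (y : ℝ) ^ 3) + 24 / Δ * (y : ℝ) ^ 2 + 1 := by
    intro y hy
    rw [Finset.mem_Icc] at hy
    have hy1 : (1 : ℝ) ≤ y := by exact_mod_cast hy.1
    have hy0 : (0 : ℝ) < y := by linarith
    have hx : ∀ k : ℤ, ∃ x : ℤ, k ∈ B y →
        |x + y * (((Δ * k + e₀ : ℤ) : ℝ) / w)| ≤ κ / (y : ℝ) ^ 4 + 4 * y / (w * J) := by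
      intro k
      by_cases hk : k ∈ B y
      · have hk' := hk
        rw [hB] at hk'
        simp only [Finset.mem_filter] at hk'
        obtain ⟨-, x, hx⟩ := hk'
        exact ⟨x, fun _ => hx⟩
      · exact ⟨0, fun h => absurd h hk⟩
    choose x hx using hx
    have hmem : ∀ k ∈ B y, k ∈ T := by
      intro k hk
      rw [hB] at hk
      simp only [Finset.mem_filter] at hk
      exact hk.1
    have hs := sep_count (B y) (fun k => x k + y * (((Δ * k + e₀ : ℤ) : ℝ) / w))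
      (δ := κ / (y : ℝ) ^ 4 + 4 * y / (w * J)) (η := w / (3 * y * J)) (by positivity) (by positivity)
      (fun k hk => hx k hk) (fun k hk k' hk' hne => ?_)
    · refine hs.trans (le_of_eq ?_)
      rw [← hw2]
      field_simp
      ring
    · have h1 := hTm k (hmem k hk)
      have h2 := hTm k' (hmem k' hk')
      have hdiff : ((Δ * k + e₀ : ℤ) : ℝ) - ((Δ * k' + e₀ : ℤ) : ℝ) = ((k - k' : ℤ) : ℝ) * Δ := by
        push_cast
        ring
      have htJ : |((k - k' : ℤ) : ℝ)| * Δ ≤ J := by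
        have h0 : |((k - k' : ℤ) : ℝ)| * Δ = |((k - k' : ℤ) : ℝ) * Δ| := by rw [abs_mul, abs_of_pos hΔ0]
        rw [h0, ← hdiff, abs_le]
        constructor <;> linarith
      have h3 := sep (m := x k - x k') (h := y * (k - k')) (t := k - k') hΔ hsq hw hw2 hJ hy1 (sub_ne_zero.2 hne)
        (by push_cast; ring) htJ
      refine h3.trans (le_of_eq ?_)
      congr 1
      have h4 : (x k : ℝ) + y * (((Δ * k + e₀ : ℤ) : ℝ) / w) - (x k' + y * (((Δ * k' + e₀ : ℤ) : ℝ) / w)) =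
          ((x k - x k' : ℤ) : ℝ) + y * ((((Δ * k + e₀ : ℤ) : ℝ) - ((Δ * k' + e₀ : ℤ) : ℝ)) / w) := by
        push_cast
        ring
      show ((x k - x k' : ℤ) : ℝ) + ((y * (k - k') : ℤ) : ℝ) * w =
        (x k : ℝ) + y * (((Δ * k + e₀ : ℤ) : ℝ) / w) - (x k' + y * (((Δ * k' + e₀ : ℤ) : ℝ) / w))
      rw [h4, hdiff, ← hw2]
      push_cast
      field_simp
  have htot : (T.card : ℝ) ≤ 6 * J * κ / w * 2 + 24 / Δ * (N : ℝ) ^ 3 + N := by
    have h1 : (T.card : ℝ) ≤ ∑ y ∈ Finset.Icc 1 N, ((B y).card : ℝ) := by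
      have := (Finset.card_le_card hcov).trans Finset.card_biUnion_le
      exact_mod_cast this
    refine (h1.trans (Finset.sum_le_sum hcount)).trans ?_
    rw [Finset.sum_add_distrib, Finset.sum_add_distrib, ← Finset.mul_sum, ← Finset.mul_sum, Finset.sum_const,
      Nat.card_Icc, nsmul_eq_mul, mul_one]
    have h2 := mul_le_mul_of_nonneg_left (sum_cube N) (show 0 ≤ 6 * J * κ / w by positivity)
    have h3 := mul_le_mul_of_nonneg_left (sum_sq N) (show 0 ≤ 24 / (Δ : ℝ) by positivity)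
    have h4 : (((N + 1 - 1 : ℕ)) : ℝ) = N := by simp
    rw [h4]
    linarith
  -- the final comparison
  have f1 : 6 * J * κ / w * 2 ≤ J / Δ / 4 := by
    rw [← hw2, div_mul_eq_mul_div, div_le_iff₀ hw]
    have : J / w ^ 2 / 4 * w = J / (4 * w) := by field_simp
    rw [this, le_div_iff₀ (by positivity)]
    have := mul_le_mul_of_nonneg_left hκ hJ0.le
    linarith
  have f2 : 24 / Δ * (N : ℝ) ^ 3 ≤ J / Δ / 8 := by
    have h1 := mul_le_mul_of_nonneg_left hN3 (show 0 ≤ 24 / (Δ : ℝ) by positivity)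
    refine h1.trans (le_of_eq ?_)
    field_simp
    ring
  have f3 : (N : ℝ) ≤ J / Δ / 4 := by
    by_contra h
    push Not at h
    have h0 : 0 ≤ J / Δ / 4 := by positivity
    have h1 := pow_lt_pow_left₀ h h0 (show (3 : ℕ) ≠ 0 by norm_num)
    have h2 : J / Δ / 4 = J / (4 * Δ) := by field_simp
    rw [h2, div_pow] at h1
    have h3 : J ^ 3 / (4 * (Δ : ℝ)) ^ 3 < J := by linarith
    rw [div_lt_iff₀ (by positivity)] at h3
    have h4 : J * J ^ 2 < J * (64 * (Δ : ℝ) ^ 3) := by linarith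
    have h5 := lt_of_mul_lt_mul_left h4 hJ0.le
    linarith
  have f4 : 8 ≤ J / Δ := by
    rw [le_div_iff₀ hΔ0]
    exact hJ
  linarith

end Pool.Agent.H595.ED
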