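import Pool.Agent.H595.ED.ED1
import Pool.Agent.H595.ED.ED4

/-!
# The next quadratic polynomial: existence
-/

set_option autoImplicit false

namespace Pool.Agent.H595.ED

/-- the automorphs of a quadratic polynomial -/
theorem automorph {a b c : ℤ} {σ σ' : ℝ} (hS : Rt a b c σ σ') (x y A B C : ℤ) : ∃ A' B' C' : ℤ,
    ev A' B' C' σ = (x + y * (a * (σ - σ'))) ^ 2 * ev A B C σ ∧
      ev A' B' C' σ' = (x - y * (a * (σ - σ'))) ^ 2 * ev A B C σ' := by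
  have hb : (b : ℝ) = -(a * (σ + σ')) := by rw [hS.sum]; ring
  have hc : (c : ℝ) = a * (σ * σ') := hS.prod.symm
  refine ⟨A * (x - b * y) ^ 2 + B * (x - b * y) * (2 * a * y) + C * (2 * a * y) ^ 2,
    2 * A * (x - b * y) * (-2 * c * y) + B * ((x - b * y) * (x + b * y) + (-2 * c * y) * (2 * a * y)) +
      2 * C * (2 * a * y) * (x + b * y),
    A * (-2 * c * y) ^ 2 + B * (-2 * c * y) * (x + b * y) + C * (x + b * y) ^ 2, ?_, ?_⟩
  · unfold ev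
    push_cast
    rw [hb, hc]
    ring
  · unfold ev
    push_cast
    rw [hb, hc]
    ring

theorem ev_neg (A B C : ℤ) (x : ℝ) : ev (-A) (-B) (-C) x = -ev A B C x := by
  unfold ev
  push_cast
  ring

theorem ev_add (A B C a b c k : ℤ) (x : ℝ) : ev (A + k * a) (B + k * b) (C + k * c) x = ev A B C x + k * ev a b c x := by
  unfold ev
  push_cast
  ring

theorem exists_U {a b c A B C : ℤ} {σ σ' : ℝ} (hS : Rt a b c σ σ') (hw : 0 < (a : ℝ) * (σ - σ'))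
    (hsq : ¬ IsSquare (b ^ 2 - 4 * a * c)) (h : ev A B C σ' ≠ 0) (Z : ℝ) : ∃ A' B' C' : ℤ,
    ev A' B' C' σ * ev A' B' C' σ' = ev A B C σ * ev A B C σ' ∧ Z ≤ a * ev A' B' C' σ' := by
  obtain ⟨w, hwd⟩ : ∃ w : ℝ, w = (a : ℝ) * (σ - σ') := ⟨_, rfl⟩
  have hw2 := sq_disc hS
  rw [← hwd] at hw hw2
  have hΔ0 : 0 < b ^ 2 - 4 * a * c := by
    have h1 : (0 : ℝ) < ((b ^ 2 - 4 * a * c : ℤ) : ℝ) := by rw [← hw2]; positivity
    exact_mod_cast h1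
  obtain ⟨x, y, hxy, hy⟩ := Pell.exists_of_not_isSquare hΔ0 hsq
  have hxyr : (x : ℝ) ^ 2 - w ^ 2 * (y : ℝ) ^ 2 = 1 := by
    rw [hw2]
    exact_mod_cast hxy
  have ha0 : (a : ℝ) ≠ 0 := by
    rintro h0
    rw [hwd, h0, zero_mul] at hw
    exact lt_irrefl _ hw
  obtain ⟨η, hη⟩ : ∃ η : ℝ, η = |x| + |y| * w := ⟨_, rfl⟩
  have hprod : ((|x| : ℤ) + (-|y| : ℤ) * w) * η = 1 := by
    rw [hη]
    push_cast
    have h1 : |(x : ℝ)| ^ 2 = x ^ 2 := sq_abs _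
    have h2 : |(y : ℝ)| ^ 2 = y ^ 2 := sq_abs _
    have h3 : (|(x : ℝ)| + -|(y : ℝ)| * w) * (|(x : ℝ)| + |(y : ℝ)| * w) = |(x : ℝ)| ^ 2 - w ^ 2 * |(y : ℝ)| ^ 2 := by
      ring
    rw [h3, h1, h2, hxyr]
  have hη1 : 1 < η := by
    have hx : x ≠ 0 := by
      rintro rfl
      have h1 : 0 ≤ w ^ 2 * (y : ℝ) ^ 2 := by positivity
      push_cast at hxyr
      linarith
    have h1 : (1 : ℝ) ≤ |(x : ℝ)| := by
      rw [← Int.cast_abs]
      exact_mod_cast Int.one_le_abs hx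
    have h2 : (1 : ℝ) ≤ |(y : ℝ)| := by
      rw [← Int.cast_abs]
      exact_mod_cast Int.one_le_abs hy
    have h3 : 0 < |(y : ℝ)| * w := mul_pos (by linarith) hw
    rw [hη]
    push_cast
    linarith
  have hiter : ∀ i : ℕ, ∃ A' B' C' : ℤ, ev A' B' C' σ * (η ^ 2) ^ i = ev A B C σ ∧
      ev A' B' C' σ' = (η ^ 2) ^ i * ev A B C σ' := by
    intro i
    induction i with
    | zero => exact ⟨A, B, C, by simp, by simp⟩
    | succ i ih =>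
      obtain ⟨A', B', C', e1, e2⟩ := ih
      obtain ⟨A'', B'', C'', e3, e4⟩ := automorph hS |x| (-|y|) A' B' C'
      rw [← hwd] at e3 e4
      refine ⟨A'', B'', C'', ?_, ?_⟩
      · rw [e3, ← e1, pow_succ]
        calc ((|x| : ℤ) + (-|y| : ℤ) * w) ^ 2 * ev A' B' C' σ * ((η ^ 2) ^ i * η ^ 2)
            = (((|x| : ℤ) + (-|y| : ℤ) * w) * η) ^ 2 * (ev A' B' C' σ * (η ^ 2) ^ i) := by ring
          _ = _ := by rw [hprod, one_pow, one_mul]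
      · rw [e4, e2, pow_succ]
        have h1 : ((|x| : ℤ) : ℝ) - ((-|y| : ℤ) : ℝ) * w = η := by
          rw [hη]
          push_cast
          ring
        rw [h1]
        ring
  have hη2 : 1 < η ^ 2 := one_lt_pow₀ hη1 two_ne_zero
  have hc0 : 0 < |(a : ℝ) * ev A B C σ'| := abs_pos.2 (mul_ne_zero ha0 h)
  obtain ⟨i, hi⟩ := pow_unbounded_of_one_lt (Z / |(a : ℝ) * ev A B C σ'|) hη2
  rw [div_lt_iff₀ hc0] at hi
  obtain ⟨A', B', C', e1, e2⟩ := hiter i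
  have hpr : ev A' B' C' σ * ev A' B' C' σ' = ev A B C σ * ev A B C σ' := by
    rw [e2, ← e1]
    ring
  have hηi : 0 < (η ^ 2) ^ i := by positivity
  rcases le_or_gt 0 ((a : ℝ) * ev A B C σ') with h1 | h1
  · refine ⟨A', B', C', hpr, ?_⟩
    rw [abs_of_nonneg h1] at hi
    rw [e2]
    linarith
  · refine ⟨-A', -B', -C', ?_, ?_⟩
    · rw [ev_neg, ev_neg, ← hpr]
      ring
    · rw [abs_of_neg h1] at hi
      rw [ev_neg, e2]
      linarith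

/-! ### Identities -/

section

variable {a b c a' b' c' : ℤ} {σ σ' : ℝ}

/-- the bilinear invariant -/
def bil (a b c a' b' c' : ℤ) : ℤ := b * b' - 2 * a * c' - 2 * c * a'

theorem id1 (hS : Rt a b c σ σ') : (bil a b c a' b' c' : ℝ) ^ 2 -
    ((a : ℝ) * (σ - σ')) ^ 2 * ((b' ^ 2 - 4 * a' * c' : ℤ) : ℝ) = 4 * ((a : ℝ) * ev a' b' c' σ * (a * ev a' b' c' σ')) := by
  have hb : (b : ℝ) = -(a * (σ + σ')) := by rw [hS.sum]; ring
  have hc : (c : ℝ) = a * (σ * σ') := hS.prod.symm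
  unfold ev bil
  push_cast
  rw [hb, hc]
  ring

theorem id2 (hS : Rt a b c σ σ') : (a' : ℝ) * (a * (σ - σ')) ^ 2 =
    a * ((bil a b c a' b' c' : ℝ) + (a * ev a' b' c' σ + a * ev a' b' c' σ')) := by
  have hb : (b : ℝ) = -(a * (σ + σ')) := by rw [hS.sum]; ring
  have hc : (c : ℝ) = a * (σ * σ') := hS.prod.symm
  unfold ev bil
  push_cast
  rw [hb, hc]
  ring

theorem id3 (hS : Rt a b c σ σ') : (a : ℝ) * (σ - σ') * (2 * a' * σ + b') =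
    (bil a b c a' b' c' : ℝ) + 2 * (a * ev a' b' c' σ) := by
  have hb : (b : ℝ) = -(a * (σ + σ')) := by rw [hS.sum]; ring
  have hc : (c : ℝ) = a * (σ * σ') := hS.prod.symm
  unfold ev bil
  push_cast
  rw [hb, hc]
  ring

theorem bil_add (A B C k : ℤ) : bil a b c (A + k * a) (B + k * b) (C + k * c) =
    (b ^ 2 - 4 * a * c) * k + bil a b c A B C := by
  unfold bil
  ring

theorem root_pair {δ : ℝ} (ha : (a' : ℝ) ≠ 0) (hδ : δ ^ 2 = ((b' ^ 2 - 4 * a' * c' : ℤ) : ℝ)) :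
    Rt a' b' c' ((-b' + δ) / (2 * a')) ((-b' - δ) / (2 * a')) ∧
      (a' : ℝ) * ((-b' + δ) / (2 * a') - (-b' - δ) / (2 * a')) = δ := by
  push_cast at hδ
  refine ⟨⟨?_, ?_⟩, ?_⟩
  · field_simp
    ring
  · field_simp
    linear_combination -hδ
  · field_simp
    ring

theorem ev_fac (hS : Rt a b c σ σ') (x : ℝ) : ev a b c x = (x - σ) * (a * (x - σ) + a * (σ - σ')) := by
  have hb : (b : ℝ) = -(a * (σ + σ')) := by rw [hS.sum]; ring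
  have hc : (c : ℝ) = a * (σ * σ') := hS.prod.symm
  unfold ev
  rw [hb, hc]
  ring

end

/-! ### The existence of the next polynomial -/

theorem exists_P {a b c A B C : ℤ} {σ σ' : ℝ} (hS : Rt a b c σ σ') {w : ℝ} (hwd : w = (a : ℝ) * (σ - σ'))
    (hw : 0 < w) (hsq : ¬ IsSquare (b ^ 2 - 4 * a * c)) (hres : res A B C a b c = 1 ∨ res A B C a b c = -1)
    {κ d : ℝ} (hκ0 : 0 ≤ κ) (hκ : 48 * κ * w ≤ 1) (hd : 0 < d) (h16 : 16 * |(a : ℝ)| * d ≤ w ^ 2)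
    {J₀ : ℝ} (hJ0 : 1 ≤ J₀) (hJ1 : 64 * (w ^ 2) ^ 3 < J₀) (hJ2 : 8 * w ^ 2 ≤ J₀) :
    ∃ a' b' c' : ℤ, ∃ J G ρ : ℝ, J₀ ≤ J ∧ (ρ = 1 ∨ ρ = -1) ∧ 8 * J ≤ G ∧ a * ev a' b' c' σ' = G ∧
      a * ev a' b' c' σ = ρ / G ∧ J = |(a : ℝ)| * d / w ^ 2 * (ρ / G + G) ∧ J ≤ (bil a b c a' b' c' : ℝ) ∧
      (bil a b c a' b' c' : ℝ) ≤ 2 * J ∧
      ∀ x y : ℤ, 1 ≤ y → 192 * (y : ℝ) ^ 3 ≤ J →
        κ / (y : ℝ) ^ 4 + 4 * y / (w * J) < |x + y * ((bil a b c a' b' c' : ℝ) / w)| := by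
  have hw2 := sq_disc hS
  rw [← hwd] at hw2
  have hΔ0 : 0 < b ^ 2 - 4 * a * c := by
    have h1 : (0 : ℝ) < ((b ^ 2 - 4 * a * c : ℤ) : ℝ) := by rw [← hw2]; positivity
    exact_mod_cast h1
  have ha0 : (a : ℝ) ≠ 0 := by
    rintro h0
    rw [hwd, h0, zero_mul] at hw
    exact lt_irrefl _ hw
  have ham : 0 < |(a : ℝ)| := abs_pos.2 ha0
  obtain ⟨ρ, hρ, hρ1⟩ : ∃ ρ : ℝ, ρ = (a : ℝ) ^ 2 * (ev A B C σ * ev A B C σ') ∧ (ρ = 1 ∨ ρ = -1) := by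
    refine ⟨_, rfl, ?_⟩
    rw [← res_eq hS]
    rcases hres with h | h
    · left; rw [h]; norm_num
    · right; rw [h]; norm_num
  have hρa : |ρ| = 1 := by rcases hρ1 with h | h <;> rw [h] <;> norm_num
  have hne : ev A B C σ' ≠ 0 := by
    intro h0
    rw [h0, mul_zero, mul_zero] at hρ
    rcases hρ1 with h | h <;> rw [h] at hρ <;> norm_num at hρ
  obtain ⟨θ, hθ⟩ : ∃ θ : ℝ, θ = |(a : ℝ)| * d / w ^ 2 := ⟨_, rfl⟩
  have hθ0 : 0 < θ := by rw [hθ]; positivity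
  have hθ1 : θ ≤ 1 / 16 := by
    rw [hθ, div_le_iff₀ (by positivity)]
    linarith
  obtain ⟨A', B', C', e1, e2⟩ := exists_U hS (by rw [← hwd]; exact hw) hsq hne (J₀ / θ + 1)
  obtain ⟨G, hG⟩ : ∃ G : ℝ, G = a * ev A' B' C' σ' := ⟨_, rfl⟩
  rw [← hG] at e2
  have hG1 : 1 ≤ G := by
    have : 0 ≤ J₀ / θ := div_nonneg (by linarith) hθ0.le
    linarith
  have hG0 : 0 < G := by linarith
  have hUσ : a * ev A' B' C' σ = ρ / G := by
    rw [eq_div_iff hG0.ne', hG, hρ, ← e1]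
    ring
  have hρG : |ρ / G| ≤ 1 := by
    rw [abs_div, hρa, abs_of_pos hG0, div_le_one hG0]
    exact hG1
  obtain ⟨J, hJ⟩ : ∃ J : ℝ, J = θ * (ρ / G + G) := ⟨_, rfl⟩
  have hJJ : J₀ ≤ J := by
    have h1 : J₀ / θ ≤ ρ / G + G := by linarith [(abs_le.1 hρG).1]
    rw [div_le_iff₀ hθ0] at h1
    rw [hJ]
    linarith
  have hJG : 8 * J ≤ G := by
    have h1 : ρ / G + G ≤ 2 * G := by linarith [(abs_le.1 hρG).2]
    have h2 : θ * (ρ / G + G) ≤ 1 / 16 * (2 * G) :=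
      mul_le_mul hθ1 h1 (by linarith [(abs_le.1 hρG).1]) (by norm_num)
    linarith
  obtain ⟨k, k1, k2, k3⟩ := exists_E (e₀ := bil a b c A' B' C') hΔ0 hsq hw hw2 hκ0 hκ (J := J)
    (by rw [← hw2]; nlinarith) (by rw [← hw2]; linarith)
  refine ⟨A' + k * a, B' + k * b, C' + k * c, J, G, ρ, hJJ, hρ1, hJG, ?_, ?_, ?_, ?_, ?_, ?_⟩
  · rw [ev_add, ev_root hS.swap, mul_zero, add_zero, ← hG]
  · rw [ev_add, ev_root hS, mul_zero, add_zero, hUσ]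
  · rw [← hθ, hJ]
  · rw [bil_add]
    exact k1
  · rw [bil_add]
    exact k2
  · rw [bil_add]
    exact k3

end Pool.Agent.H595.ED
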