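import Mathlib

/-!
# The geometry of the next quadratic polynomial
-/

set_option autoImplicit false

namespace Pool.Agent.H595.ED

theorem geoX {m d w J E X T : ℝ} (hm : 0 < m) (hd : 216 ≤ d) (hw : 0 < w) (h16 : 16 * m * d ≤ w ^ 2) (hJ0 : 0 < J)
    (hE1 : J ≤ E) (hE2 : E ≤ 2 * J) (hT : J = m * d / w ^ 2 * T) (hX : X * w ^ 2 = m * (E + T)) :
    J / d ≤ X ∧ X ≤ 9 * J / (8 * d) ∧ 192 * X ≤ J := by
  have hd0 : 0 < d := by linarith
  have h1 : m * T / w ^ 2 = J / d := by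
    rw [hT]
    field_simp
  have hX' : X = m * E / w ^ 2 + J / d := by
    rw [← h1, ← add_div, eq_div_iff (by positivity), hX]
    ring
  have h2 : 0 ≤ m * E / w ^ 2 := div_nonneg (mul_nonneg hm.le (by linarith)) (by positivity)
  have h3 : m * E / w ^ 2 ≤ J / (8 * d) := by
    rw [div_le_div_iff₀ (by positivity) (by positivity)]
    have h4 : m * E * (8 * d) ≤ m * (2 * J) * (8 * d) := by gcongr
    have h5 : 16 * m * d * J ≤ w ^ 2 * J := mul_le_mul_of_nonneg_right h16 hJ0.le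
    linarith
  have h4 : J / (8 * d) + J / d = 9 * J / (8 * d) := by
    field_simp
    ring
  have h5 : X ≤ 9 * J / (8 * d) := by rw [← h4, hX']; linarith
  refine ⟨by rw [hX']; linarith, h5, ?_⟩
  have h6 : 9 * J / (8 * d) ≤ J / 192 := by
    rw [div_le_div_iff₀ (by positivity) (by norm_num)]
    nlinarith
  linarith

theorem geoD {w J E δ ρ : ℝ} (hw : 0 < w) (hJ : 8 ≤ J) (hE1 : J ≤ E) (hE2 : E ≤ 2 * J) (hδ : 0 < δ)
    (h : E ^ 2 - w ^ 2 * δ ^ 2 = 4 * ρ) (hρ : |ρ| = 1) :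
    |δ - E / w| ≤ 4 / (w * J) ∧ J / (2 * w) ≤ δ ∧ δ ≤ 4 * J / w := by
  have hJ0 : 0 < J := by linarith
  have hE0 : 0 < E := by linarith
  have h1 : |δ - E / w| * (w * (w * δ + E)) = 4 := by
    have h2 : (δ - E / w) * (w * (w * δ + E)) = -(4 * ρ) := by
      rw [← h]
      field_simp
      ring
    have h3 : |(δ - E / w) * (w * (w * δ + E))| = 4 := by
      rw [h2, abs_neg, abs_mul, hρ]
      norm_num
    rw [abs_mul, abs_of_pos (show 0 < w * (w * δ + E) by positivity)] at h3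
    exact h3
  have h2 : |δ - E / w| ≤ 4 / (w * J) := by
    rw [le_div_iff₀ (by positivity), ← h1]
    apply mul_le_mul_of_nonneg_left _ (abs_nonneg _)
    apply mul_le_mul_of_nonneg_left _ hw.le
    have : 0 < w * δ := by positivity
    linarith
  have h3 : 4 / (w * J) ≤ J / (2 * w) := by
    rw [div_le_div_iff₀ (by positivity) (by positivity)]
    have : 8 * w ≤ J * J * w := by
      apply mul_le_mul_of_nonneg_right _ hw.le
      nlinarith
    linarith
  have h4 := abs_le.1 h2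
  have h5 : J / w ≤ E / w := div_le_div_of_nonneg_right hE1 hw.le
  have h6 : E / w ≤ 2 * J / w := div_le_div_of_nonneg_right hE2 hw.le
  have h7 : J / w = J / (2 * w) + J / (2 * w) := by field_simp; ring
  have h8 : 2 * J / w + J / (2 * w) ≤ 4 * J / w := by
    have : 4 * J / w - (2 * J / w + J / (2 * w)) = 3 / 2 * (J / w) := by field_simp; ring
    have h9 : 0 < J / w := by positivity
    linarith
  refine ⟨h2, by linarith, by linarith⟩

theorem geoB {w J G E δ D X t ρ : ℝ} (hw : 0 < w) (hJ : 0 < J) (hG : 8 * J ≤ G) (hX : 0 < X)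
    (h1 : |δ - E / w| ≤ 4 / (w * J)) (hD : w * D = E + 2 * (ρ / G)) (hρ : |ρ| = 1) (ht : |2 * t| * X = |δ - D|) :
    |t| ≤ 5 / (2 * w * J * X) := by
  have hG0 : 0 < G := by linarith
  have h2 : |δ - D| ≤ |δ - E / w| + 2 / (w * G) := by
    have h3 : δ - D = (δ - E / w) + -(2 * ρ / (w * G)) := by
      have : D = E / w + 2 * ρ / (w * G) := by
        field_simp
        field_simp at hD
        linarith
      rw [this]
      ring
    rw [h3]
    refine (abs_add_le _ _).trans ?_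
    rw [abs_neg, abs_div, abs_mul, hρ, abs_of_pos (show 0 < w * G by positivity), abs_two, mul_one]
  have h3 : 2 / (w * G) ≤ 1 / (w * J) := by
    rw [div_le_div_iff₀ (by positivity) (by positivity)]
    have h4 : w * (8 * J) ≤ w * G := mul_le_mul_of_nonneg_left hG hw.le
    have h5 : 0 < w * J := by positivity
    linarith
  have h4 : |δ - D| ≤ 5 / (w * J) := by
    have : 4 / (w * J) + 1 / (w * J) = 5 / (w * J) := by ring
    linarith
  rw [← ht, abs_mul, abs_two] at h4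
  rw [le_div_iff₀ (by positivity)]
  rw [le_div_iff₀ (by positivity)] at h4
  linarith

theorem geoE {w J d X δ ε : ℝ} (hw : 0 < w) (hJ : 0 < J) (hd : 0 < d) (hX : 0 < X) (h1 : J / d ≤ X)
    (h2 : X ≤ 9 * J / (8 * d)) (h3 : J / (2 * w) ≤ δ) (h4 : δ ≤ 4 * J / w) (hε : ε * X = δ) :
    4 * d / (9 * w) ≤ ε ∧ ε ≤ 4 * d / w := by
  have e : ε = δ / X := by rw [eq_div_iff hX.ne', hε]
  rw [e]
  constructor
  · rw [div_le_div_iff₀ (by positivity) hX]
    have h5 : 4 * d * X ≤ 4 * d * (9 * J / (8 * d)) := by gcongr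
    have h6 : 4 * d * (9 * J / (8 * d)) = 9 * J / 2 := by field_simp; ring
    have h7 : J / (2 * w) * (9 * w) ≤ δ * (9 * w) := by gcongr
    have h8 : J / (2 * w) * (9 * w) = 9 * J / 2 := by field_simp
    linarith
  · rw [div_le_div_iff₀ hX hw]
    have h5 : 4 * d * (J / d) ≤ 4 * d * X := by gcongr
    have h6 : 4 * d * (J / d) = 4 * J := by field_simp
    have h7 : δ * w ≤ 4 * J / w * w := by gcongr
    have h8 : 4 * J / w * w = 4 * J := by field_simp
    linarith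

theorem geoV {a w d t e ε : ℝ} (hw : 0 < w) (hd : 0 < d) (hε : ε = |e|) (ht : |t| ≤ ε / 8) (ha : |a| * ε ≤ w / 4)
    (h1 : 4 * d / (9 * w) ≤ ε) (h2 : ε ≤ 4 * d / w) :
    d / 4 ≤ |(t - e) * (a * (t - e) + w)| ∧ |(t - e) * (a * (t - e) + w)| ≤ 6 * d := by
  have hε0 : 0 ≤ ε := by rw [hε]; exact abs_nonneg _
  have k1 : |t - e| ≤ 9 / 8 * ε := by
    have := abs_sub t e
    rw [← hε] at this
    linarith
  have k2 : 7 / 8 * ε ≤ |t - e| := by
    have := abs_sub_abs_le_abs_sub e t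
    rw [abs_sub_comm e t, ← hε] at this
    linarith
  have k3 : |a * (t - e)| ≤ 9 / 32 * w := by
    rw [abs_mul]
    have := mul_le_mul_of_nonneg_left k1 (abs_nonneg a)
    linarith
  have k4 := abs_le.1 k3
  have k5 : 0 < a * (t - e) + w := by linarith
  rw [abs_mul, abs_of_pos k5]
  have h3 : 4 * d / 9 ≤ ε * w := by
    rw [div_le_iff₀ (by positivity)] at h1
    linarith
  have h4 : ε * w ≤ 4 * d := by
    rw [le_div_iff₀ hw] at h2
    exact h2
  constructor
  · have h5 : 7 / 8 * ε * (23 / 32 * w) ≤ |t - e| * (a * (t - e) + w) := by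
      apply mul_le_mul k2 (by linarith) (by positivity) (abs_nonneg _)
    linarith
  · have h5 : |t - e| * (a * (t - e) + w) ≤ 9 / 8 * ε * (41 / 32 * w) := by
      apply mul_le_mul k1 (by linarith) k5.le (by positivity)
    linarith

/-- the first condition -/
theorem cond1 {s n : ℕ} (hs : 2 ≤ s) {K M d w ε V : ℝ} (hK : 1 ≤ K) (hM : 1 ≤ M) (hd : 1 ≤ d) (hw : w = d ^ (2 * s))
    (hε0 : 0 ≤ ε) (hε : ε ≤ 4 * d / w) (hV0 : 0 ≤ V) (hV : V ≤ 6 * d) (h : 24 * K * M * 6 ^ s * 2 ^ n < d) :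
    6 * K * M * ε * V ^ s * 2 ^ n < 1 := by
  have hd0 : 0 < d := by linarith
  have hw0 : 0 < w := by rw [hw]; positivity
  calc 6 * K * M * ε * V ^ s * 2 ^ n ≤ 6 * K * M * (4 * d / w) * (6 * d) ^ s * 2 ^ n := by gcongr
    _ = 24 * K * M * 6 ^ s * 2 ^ n * (d ^ (s + 1) / w) := by
        rw [mul_pow, pow_succ]
        ring
    _ < d * (d ^ (s + 1) / w) := by
        apply mul_lt_mul_of_pos_right h
        positivity
    _ = d ^ (s + 2) / w := by
        rw [pow_succ d (s + 1)]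
        ring
    _ ≤ 1 := by
        rw [div_le_one hw0, hw]
        exact pow_le_pow_right₀ hd (by omega)

/-- the second condition -/
theorem cond2 {s : ℕ} (hs : 2 ≤ s) {K M d w ε : ℝ} (hK : 1 ≤ K) (hM : 1 ≤ M) (hd : 1 ≤ d) (hw : w = d ^ (2 * s))
    (hε : ε ≤ 4 * d / w) (h : 41472 * M ^ 5 * K < d) : 10368 * M ^ 5 * K * ε < 1 := by
  have hd0 : 0 < d := by linarith
  have hw0 : 0 < w := by rw [hw]; positivity
  calc 10368 * M ^ 5 * K * ε ≤ 10368 * M ^ 5 * K * (4 * d / w) := by gcongr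
    _ = 41472 * M ^ 5 * K * (d / w) := by ring
    _ < d * (d / w) := by
        apply mul_lt_mul_of_pos_right h
        positivity
    _ = d ^ 2 / w := by ring
    _ ≤ 1 := by
        rw [div_le_one hw0, hw]
        exact pow_le_pow_right₀ hd (by omega)

/-- the third condition -/
theorem cond3 {s n : ℕ} (hs : 2 ≤ s) (hn : n = 2 * s) {K M d w : ℝ} (hK : 1 ≤ K) (hM : 1 ≤ M) (hd : 1 ≤ d)
    (hw : w = d ^ (2 * s)) (h : 384 * M * K * (6 * M) ^ n * 4 ^ (s * (n - 1)) ≤ d) :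
    48 * (8 * M * K * (6 * M) ^ n / ((d / 4) ^ s) ^ (n - 1)) * w ≤ 1 := by
  have hd0 : 0 < d := by linarith
  have h1 : ((d / 4) ^ s) ^ (n - 1) = d ^ (s * (n - 1)) / 4 ^ (s * (n - 1)) := by
    rw [← pow_mul, div_pow]
  have h2 : d * d ^ (2 * s) ≤ d ^ (s * (n - 1)) := by
    rw [← pow_succ']
    apply pow_le_pow_right₀ hd
    have h3 : s * 3 ≤ s * (n - 1) := Nat.mul_le_mul_left s (by omega)
    omega
  rw [h1, hw]
  have h3 : 48 * (8 * M * K * (6 * M) ^ n / (d ^ (s * (n - 1)) / 4 ^ (s * (n - 1)))) * d ^ (2 * s) =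
      (384 * M * K * (6 * M) ^ n * 4 ^ (s * (n - 1))) * d ^ (2 * s) / d ^ (s * (n - 1)) := by
    field_simp
    ring
  rw [h3, div_le_one (by positivity)]
  exact (mul_le_mul_of_nonneg_right h (by positivity)).trans h2

/-- the size of the next parameter -/
theorem exists_d {s : ℕ} (hs : 2 ≤ s) {δ Z w J : ℝ} (hδ : 0 < δ) (hw : 1 ≤ w) (h1 : J / (2 * w) ≤ δ)
    (h2 : 2 * w * (max Z w) ^ (2 * s) ≤ J) : ∃ d' : ℝ, 0 < d' ∧ d' ^ (2 * s) = δ ∧ Z ≤ d' ∧ w ≤ d' := by
  refine ⟨δ ^ ((1 : ℝ) / ((2 * s : ℕ) : ℝ)), by positivity, ?_, ?_⟩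
  · rw [← Real.rpow_natCast, ← Real.rpow_mul hδ.le, one_div, inv_mul_cancel₀, Real.rpow_one]
    exact_mod_cast (by omega : 2 * s ≠ 0)
  · have h0 : 0 ≤ max Z w := le_trans (by linarith) (le_max_right Z w)
    have h3 : (max Z w) ^ (2 * s) ≤ δ := by
      refine le_trans ?_ h1
      rw [le_div_iff₀ (by positivity)]
      linarith
    have h4 : max Z w ≤ δ ^ ((1 : ℝ) / ((2 * s : ℕ) : ℝ)) := by
      have h5 : max Z w = ((max Z w) ^ (2 * s)) ^ ((1 : ℝ) / ((2 * s : ℕ) : ℝ)) := by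
        rw [← Real.rpow_natCast, ← Real.rpow_mul h0, one_div, mul_inv_cancel₀, Real.rpow_one]
        exact_mod_cast (by omega : 2 * s ≠ 0)
      rw [h5]
      exact Real.rpow_le_rpow (by positivity) h3 (by positivity)
    exact ⟨(le_max_left _ _).trans h4, (le_max_right _ _).trans h4⟩

/-- the condition on the leading coefficient -/
theorem cond5 {s : ℕ} (hs : 2 ≤ s) {X J w d d' δ : ℝ} (hw : 1 ≤ w) (hd : 216 ≤ d) (_hJ : 0 < J)
    (hX : X ≤ 9 * J / (8 * d)) (hδ : J / (2 * w) ≤ δ) (h1 : d' ^ (2 * s) = δ) (h2 : w ≤ d') :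
    16 * X * d' ≤ δ ^ 2 := by
  have hd0 : 0 < d := by linarith
  have hw0 : 0 < w := by linarith
  have hd1 : 1 ≤ d' := by linarith
  have hδ0 : 0 < δ := by rw [← h1]; positivity
  have h3 : J ≤ 2 * w * δ := by
    rw [div_le_iff₀ (by positivity)] at hδ
    linarith
  have h4 : 9 * J / (8 * d) ≤ w * δ / 96 := by
    rw [div_le_div_iff₀ (by positivity) (by norm_num)]
    have : w * δ * (8 * 216) ≤ w * δ * (8 * d) := by gcongr
    linarith
  have h5 : w * d' ≤ δ := by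
    rw [← h1]
    calc w * d' ≤ d' * d' := by gcongr
      _ = d' ^ 2 := by ring
      _ ≤ d' ^ (2 * s) := pow_le_pow_right₀ hd1 (by omega)
  have h6 : 16 * X * d' ≤ 16 * (w * δ / 96) * d' := by
    apply mul_le_mul_of_nonneg_right _ (by linarith)
    linarith
  have h7 : 16 * (w * δ / 96) * d' = (w * d') * δ / 6 := by ring
  have h8 : (w * d') * δ ≤ δ * δ := mul_le_mul_of_nonneg_right h5 hδ0.le
  nlinarith

end Pool.Agent.H595.ED
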