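import Pool.Agent.H595.ED.ED3
import Pool.Agent.H595.ED.ED5
import Pool.Agent.H595.ED.ED6

/-!
# The next quadratic polynomial
-/

set_option autoImplicit false

namespace Pool.Agent.H595.ED

open Polynomial

/-- the state of the construction -/
structure St (s : ℕ) (A B C a b c : ℤ) (σ σ' d : ℝ) : Prop where
  rt : Rt a b c σ σ'
  pos : 0 < (a : ℝ) * (σ - σ')
  hσ : |σ| < 3 / 4
  hσ' : |σ'| ≤ 1
  nsq : ¬ IsSquare (b ^ 2 - 4 * a * c)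
  hres : res A B C a b c = 1 ∨ res A B C a b c = -1
  dw : d ^ (2 * s) = (a : ℝ) * (σ - σ')
  ineq : 16 * |(a : ℝ)| * d ≤ ((a : ℝ) * (σ - σ')) ^ 2

/-- no irreducible polynomial of degree `n` and of height at least `Y₁` has a root very near to `β` -/
def Good (n : ℕ) (K Y₁ β : ℝ) : Prop := ∀ Q : ℤ[X], Irreducible Q → Q.natDegree = n → ∀ Y : ℝ,
  (∀ i, |(Q.coeff i : ℝ)| ≤ Y) → Y₁ ≤ Y → ∀ α : ℝ, aeval α Q = 0 → 2 * K / Y ^ (n + 1) < |β - α|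

theorem exists_H (Q : ℤ[X]) : ∃ H : ℝ, 1 ≤ H ∧ ∀ i, |(Q.coeff i : ℝ)| ≤ H := by
  refine ⟨1 + ∑ i ∈ Finset.range (Q.natDegree + 1), |(Q.coeff i : ℝ)|, ?_, fun i => ?_⟩
  · have : 0 ≤ ∑ i ∈ Finset.range (Q.natDegree + 1), |(Q.coeff i : ℝ)| := Finset.sum_nonneg fun i _ => abs_nonneg _
    linarith
  · by_cases hi : i ∈ Finset.range (Q.natDegree + 1)
    · have := Finset.single_le_sum (f := fun i => |(Q.coeff i : ℝ)|) (fun i _ => abs_nonneg _) hi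
      linarith
    · rw [Finset.mem_range] at hi
      rw [coeff_eq_zero_of_natDegree_lt (by omega), Int.cast_zero, abs_zero]
      have : 0 ≤ ∑ i ∈ Finset.range (Q.natDegree + 1), |(Q.coeff i : ℝ)| := Finset.sum_nonneg fun i _ => abs_nonneg _
      linarith

theorem exists_J (x₁ x₂ x₃ x₄ x₅ x₆ : ℝ) : ∃ J : ℝ, 1 ≤ J ∧ x₁ < J ∧ x₂ ≤ J ∧ x₃ < J ∧ x₄ ≤ J ∧ x₅ ≤ J ∧ x₆ ≤ J := by
  refine ⟨1 + |x₁| + |x₂| + |x₃| + |x₄| + |x₅| + |x₆|, ?_, ?_, ?_, ?_, ?_, ?_, ?_⟩ <;>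
    linarith [abs_nonneg x₁, abs_nonneg x₂, abs_nonneg x₃, abs_nonneg x₄, abs_nonneg x₅, abs_nonneg x₆,
      le_abs_self x₁, le_abs_self x₂, le_abs_self x₃, le_abs_self x₄, le_abs_self x₅, le_abs_self x₆]

theorem t_bounds {w J d X δ ε t τ : ℝ} (hw : 1 ≤ w) (hd : 216 ≤ d) (hJ : 8 ≤ J) (hX : 0 < X) (h1 : J / d ≤ X)
    (h2 : 192 * X ≤ J) (h3 : J / (2 * w) ≤ δ) (hε : ε * X = δ) (ht : |t| ≤ 5 / (2 * w * J * X)) (hτ : 0 < τ)
    (hJτ : 5 * d / (2 * w * τ) ≤ J) : |t| ≤ ε / 8 ∧ |t| ≤ 1 / X ^ 2 ∧ |t| ≤ τ := by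
  have hw0 : 0 < w := by linarith
  have hJ0 : 0 < J := by linarith
  have hd0 : 0 < d := by linarith
  refine ⟨ht.trans ?_, ht.trans ?_, ht.trans ?_⟩
  · rw [div_le_div_iff₀ (by positivity) (by norm_num)]
    rw [div_le_iff₀ (by positivity)] at h3
    have h4 : J * J ≤ J * (δ * (2 * w)) := mul_le_mul_of_nonneg_left h3 hJ0.le
    have h5 : ε * (2 * w * J * X) = J * (δ * (2 * w)) := by rw [← hε]; ring
    rw [h5]
    nlinarith
  · rw [div_le_div_iff₀ (by positivity) (by positivity)]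
    have h4 : 5 * X * X ≤ 2 * w * J * X := by
      apply mul_le_mul_of_nonneg_right _ hX.le
      nlinarith
    linarith
  · rw [div_le_iff₀ (by positivity)] at hJτ h1
    rw [div_le_iff₀ (by positivity)]
    have h4 : J * (2 * w * τ) * 1 ≤ J * (2 * w * τ) * J := by
      apply mul_le_mul_of_nonneg_left (by linarith) (by positivity)
    have h5 : 5 * d ≤ J * (2 * w * τ) * J := by linarith
    have h6 : J * (2 * w * τ) * J ≤ J * (2 * w * τ) * (X * d) := by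
      apply mul_le_mul_of_nonneg_left h1 (by positivity)
    have h7 : 5 * d ≤ τ * (2 * w * J * X) * d := by
      calc 5 * d ≤ J * (2 * w * τ) * (X * d) := h5.trans h6
        _ = _ := by ring
    exact le_of_mul_le_mul_right h7 hd0

theorem abs_leading {a a' w E G ρ J d : ℝ} (hw : 0 < w) (hE : 0 < E) (hG : 1 ≤ G) (hρ : |ρ| = 1)
    (h : a' * w ^ 2 = a * (E + (ρ / G + G))) (hJ : J = |a| * d / w ^ 2 * (ρ / G + G)) :
    |a'| * w ^ 2 = |a| * (E + (ρ / G + G)) ∧ J = |a| * d / w ^ 2 * (ρ / G + G) := by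
  have hG0 : 0 < G := by linarith
  have h1 : |ρ / G| ≤ 1 := by
    rw [abs_div, hρ, abs_of_pos hG0, div_le_one hG0]
    exact hG
  have h2 := abs_le.1 h1
  have h3 : |a' * w ^ 2| = |a * (E + (ρ / G + G))| := by rw [h]
  rw [abs_mul, abs_mul, abs_of_pos (show 0 < w ^ 2 by positivity), abs_of_pos (show 0 < E + (ρ / G + G) by linarith)] at h3
  exact ⟨h3, hJ⟩

theorem step {n s : ℕ} (hs : 2 ≤ s) (hn : n = 2 * s) {K M : ℝ} (hK : 1 ≤ K) (hM : M = ((n : ℝ) + 1) ^ 3)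
    {A B C a b c : ℤ} {σ σ' d : ℝ} (h : St s A B C a b c σ σ' d) (hd0 : 216 ≤ d)
    (hd1 : 24 * K * M * 6 ^ s * 2 ^ n < d) (hd2 : 41472 * M ^ 5 * K < d)
    (hd3 : 384 * M * K * (6 * M) ^ n * 4 ^ (s * (n - 1)) ≤ d) {τ : ℝ} (hτ : 0 < τ) (Z : ℝ) :
    ∃ (a' b' c' : ℤ) (β β' d' : ℝ), St s a b c a' b' c' β β' d' ∧ Z ≤ d' ∧ Z ≤ |(a' : ℝ)| ∧ |β - σ| ≤ τ ∧
      Good n K (8 * K * |(a : ℝ)| ^ n * M ^ 2) β := by
  obtain ⟨w, hwd⟩ : ∃ w : ℝ, w = (a : ℝ) * (σ - σ') := ⟨_, rfl⟩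
  have hS := h.rt
  have hw := h.pos
  have hdw := h.dw
  have hin := h.ineq
  have hσ := h.hσ
  rw [← hwd] at hw hdw hin
  have hM1 : 1 ≤ M := by
    rw [hM]
    exact one_le_pow₀ (by linarith only [Nat.cast_nonneg (α := ℝ) n])
  have hd1' : 1 ≤ d := by linarith only [hd0]
  have hd0' : 0 < d := by linarith only [hd0]
  have hw1 : 1 ≤ w := by
    rw [← hdw]
    exact one_le_pow₀ hd1'
  have hw4 : d ^ 4 ≤ w := by
    rw [← hdw]
    exact pow_le_pow_right₀ hd1' (by omega)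
  have ha0 : (a : ℝ) ≠ 0 := by
    rintro h0
    rw [hwd, h0, zero_mul] at hw
    exact lt_irrefl _ hw
  have ha0' : a ≠ 0 := by exact_mod_cast ha0
  have hm : 0 < |(a : ℝ)| := abs_pos.2 ha0
  obtain ⟨H, hH1, hH⟩ := exists_H ((qp a b c) ^ s)
  obtain ⟨κ, hκ⟩ : ∃ κ : ℝ, κ = 8 * M * K * (6 * M) ^ n / ((d / 4) ^ s) ^ (n - 1) := ⟨_, rfl⟩
  have hκw : 48 * κ * w ≤ 1 := by
    rw [hκ]
    exact cond3 hs hn hK hM1 hd1' hdw.symm hd3
  have hκ0 : 0 < κ := by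
    rw [hκ]
    have hM0 : 0 < M := by linarith only [hM1]
    have hK0 : 0 < K := by linarith only [hK]
    positivity
  obtain ⟨τ', hτ'0, hτ'1, hτ'2⟩ : ∃ τ' : ℝ, 0 < τ' ∧ τ' ≤ τ ∧ τ' ≤ (3 / 4 - |σ|) / 2 := by
    refine ⟨min τ ((3 / 4 - |σ|) / 2), lt_min hτ (by linarith only [hσ]), min_le_left _ _, min_le_right _ _⟩
  obtain ⟨C₄, hC₄⟩ : ∃ C₄ : ℝ, C₄ = 216 * M ^ 3 * K ^ 2 * ((6 * d) ^ s) ^ 2 * (2 * |(a : ℝ)| ^ n * M ^ 2) ^ (n + 1) * H :=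
    ⟨_, rfl⟩
  obtain ⟨J₀, j0, j1, j2, j3, j4, j5, j6⟩ := exists_J (64 * (w ^ 2) ^ 3) (8 * w ^ 2) (2 * w * C₄)
    (5 * d / (2 * w * τ')) (2 * w * (max Z w) ^ (2 * s)) (Z * d)
  obtain ⟨a', b', c', J, G, ρ, hJJ, hρ, hJG, hpσ', hpσ, hJ, hE1, hE2, hE3⟩ :=
    exists_P hS hwd hw h.nsq h.hres hκ0.le hκw hd0' hin j0 j1 j2
  obtain ⟨E, hE⟩ : ∃ E : ℝ, E = (bil a b c a' b' c' : ℝ) := ⟨_, rfl⟩
  rw [← hE] at hE1 hE2 hE3
  have hρ1 : |ρ| = 1 := by rcases hρ with h | h <;> rw [h] <;> norm_num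
  have hw21 : 1 ≤ w ^ 2 := one_le_pow₀ hw1
  have hJ8 : 8 ≤ J := by linarith only [hJJ, j2, hw21]
  have hJ0 : 0 < J := by linarith only [hJ8]
  have hG1 : 1 ≤ G := by linarith only [hJG, hJ8]
  have hG0 : 0 < G := by linarith only [hG1]
  have hE0 : 0 < E := by linarith only [hE1, hJ0]
  -- the leading coefficient
  have i2 := id2 (a' := a') (b' := b') (c' := c') hS
  rw [← hwd, hpσ, hpσ', ← hE] at i2
  obtain ⟨hX, -⟩ := abs_leading hw hE0 hG1 hρ1 i2 hJ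
  obtain ⟨X, hXd⟩ : ∃ X : ℝ, X = |(a' : ℝ)| := ⟨_, rfl⟩
  rw [← hXd] at hX
  obtain ⟨x1, x2, x3⟩ := geoX hm hd0 hw hin hJ0 hE1 hE2 hJ hX
  have hX0 : 0 < X := lt_of_lt_of_le (by positivity) x1
  have ha'0 : (a' : ℝ) ≠ 0 := by
    rw [hXd] at hX0
    exact abs_pos.1 hX0
  have ha'0' : a' ≠ 0 := by exact_mod_cast ha'0
  -- the discriminant
  have i1 := id1 (a' := a') (b' := b') (c' := c') hS
  rw [← hwd, hpσ, hpσ', ← hE] at i1
  have hρG : ρ / G * G = ρ := div_mul_cancel₀ ρ hG0.ne'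
  rw [hρG] at i1
  obtain ⟨δ, hδ0, hδ⟩ : ∃ δ : ℝ, 0 < δ ∧ δ ^ 2 = ((b' ^ 2 - 4 * a' * c' : ℤ) : ℝ) := by
    have h1 : 0 < ((b' ^ 2 - 4 * a' * c' : ℤ) : ℝ) := by
      have h2 : ρ ≤ 1 := by
        rcases hρ with h | h <;> rw [h] <;> norm_num
      have h3 : 64 ≤ E ^ 2 := by nlinarith only [hE1, hJ8]
      have h4 : 0 < w ^ 2 * ((b' ^ 2 - 4 * a' * c' : ℤ) : ℝ) := by linarith only [i1, h2, h3]
      exact pos_of_mul_pos_right h4 (by positivity)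
    exact ⟨√((b' ^ 2 - 4 * a' * c' : ℤ) : ℝ), Real.sqrt_pos.2 h1, Real.sq_sqrt h1.le⟩
  rw [← hδ] at i1
  obtain ⟨d1, d2, d3⟩ := geoD hw hJ8 hE1 hE2 hδ0 i1 hρ1
  -- the roots
  obtain ⟨hP, hPδ⟩ := root_pair (a' := a') (b' := b') (c' := c') ha'0 hδ
  obtain ⟨β, hβ⟩ : ∃ β : ℝ, β = (-b' + δ) / (2 * a') := ⟨_, rfl⟩
  obtain ⟨β', hβ'⟩ : ∃ β' : ℝ, β' = (-b' - δ) / (2 * a') := ⟨_, rfl⟩
  rw [← hβ, ← hβ'] at hP hPδ
  obtain ⟨ε, hε⟩ : ∃ ε : ℝ, ε = |β - β'| := ⟨_, rfl⟩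
  have hεX : ε * X = δ := by
    rw [← hPδ, hε, hXd, ← abs_mul, mul_comm (β - β'), hPδ, abs_of_pos hδ0]
  obtain ⟨ε1, ε2⟩ := geoE hw hJ0 hd0' hX0 x1 x2 d2 d3 hεX
  have i3 := id3 (a' := a') (b' := b') (c' := c') hS
  rw [← hwd, hpσ, ← hE] at i3
  obtain ⟨t, htd⟩ : ∃ t : ℝ, t = β - σ := ⟨_, rfl⟩
  have ht1 : |2 * t| * X = |δ - (2 * a' * σ + b')| := by
    rw [hXd, ← abs_mul]
    congr 1
    rw [htd, hβ]
    field_simp
    ring
  have ht := geoB hw hJ0 hJG hX0 d1 i3 hρ1 ht1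
  obtain ⟨t1, t2, t3⟩ := t_bounds hw1 hd0 hJ8 hX0 x1 x3 d2 hεX ht hτ'0 (by linarith only [hJJ, j4])
  have hmε : |(a : ℝ)| * ε ≤ w / 4 := by
    have h1 : |(a : ℝ)| * ε ≤ |(a : ℝ)| * (4 * d / w) := mul_le_mul_of_nonneg_left ε2 hm.le
    refine h1.trans ?_
    rw [mul_div_assoc', div_le_div_iff₀ hw (by norm_num)]
    linarith only [hin]
  obtain ⟨v1, v2⟩ := geoV (e := β - β') hw hd0' hε t1 hmε ε1 ε2
  have hevV : ev a b c β' = (t - (β - β')) * (a * (t - (β - β')) + w) := by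
    rw [ev_fac hS β', hwd, htd]
    ring
  rw [← hevV] at v1 v2
  -- the resultant
  have hresP : res a b c a' b' c' = 1 ∨ res a b c a' b' c' = -1 := by
    have h1 : (res a b c a' b' c' : ℝ) = ρ := by
      rw [res_symm, res_eq hS, ← hρG, ← hpσ, ← hpσ']
      ring
    rcases hρ with h | h
    · left
      rw [h] at h1
      exact_mod_cast h1
    · right
      rw [h] at h1
      exact_mod_cast h1
  -- the third condition
  have hM0 : 0 < M := by linarith only [hM1]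
  have hK0 : 0 < K := by linarith only [hK]
  have hV1 : 1 ≤ |ev a b c β'| := by linarith only [v1, hd0]
  have g3 : ∀ x y : ℤ, 1 ≤ y → (y : ℝ) ^ 3 ≤ |(a' : ℝ)| →
      8 * M * K * (6 * M) ^ n / (|ev a b c β'| ^ s) ^ (n - 1) / (y : ℝ) ^ 4 < |x + y * ((a' : ℝ) * (β - β'))| := by
    intro x y hy hyX
    have hy1 : (1 : ℝ) ≤ y := by exact_mod_cast hy
    have hy0 : (0 : ℝ) < y := by linarith only [hy1]
    rw [hPδ]
    rw [← hXd] at hyX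
    have h1 := hE3 x y hy (by linarith only [hyX, x3])
    have h2 : |x + y * (E / w)| ≤ |x + y * δ| + 4 * y / (w * J) := by
      have h3 : (x : ℝ) + y * (E / w) = (x + y * δ) + -(y * (δ - E / w)) := by ring
      rw [h3]
      refine (abs_add_le _ _).trans ?_
      rw [abs_neg, abs_mul, abs_of_pos hy0]
      have h4 := mul_le_mul_of_nonneg_left d1 hy0.le
      have h5 : (y : ℝ) * (4 / (w * J)) = 4 * y / (w * J) := by ring
      linarith only [h4, h5]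
    have h3 : 8 * M * K * (6 * M) ^ n / (|ev a b c β'| ^ s) ^ (n - 1) ≤ κ := by
      rw [hκ]
      gcongr
    have h4 : 8 * M * K * (6 * M) ^ n / (|ev a b c β'| ^ s) ^ (n - 1) / (y : ℝ) ^ 4 ≤ κ / (y : ℝ) ^ 4 :=
      div_le_div_of_nonneg_right h3 (by positivity)
    linarith only [h1, h2, h4]
  have hX1 : 1 ≤ X := by
    refine le_trans ?_ x1
    rw [one_le_div hd0']
    have h1 : d ≤ d ^ 4 := le_self_pow₀ hd1' (by norm_num)
    have h2 : w ≤ w ^ 2 := le_self_pow₀ hw1 (by norm_num)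
    linarith only [h1, h2, hw4, j2, hJJ, hw21]
  have hnsq : ¬ IsSquare (b' ^ 2 - 4 * a' * c') := by
    rintro ⟨r, hr⟩
    have h1 : δ ^ 2 = |(r : ℝ)| ^ 2 := by
      rw [hδ, hr, sq_abs]
      push_cast
      ring
    have h2 : δ = |(r : ℝ)| := (pow_left_inj₀ hδ0.le (abs_nonneg _) two_ne_zero).1 h1
    have h3 := g3 (-|r|) 1 le_rfl (by rw [← hXd]; simpa using hX1)
    rw [hPδ, h2] at h3
    push_cast at h3
    have h4 : -|(r : ℝ)| + 1 * |(r : ℝ)| = 0 := by ring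
    rw [h4, abs_zero] at h3
    have h5 : 0 ≤ 8 * M * K * (6 * M) ^ n / (|ev a b c β'| ^ s) ^ (n - 1) / 1 ^ 4 := by positivity
    exact absurd h3 (not_lt.2 h5)
  have hPirr : Irreducible (qp a' b' c') := irr_qp hresP ha'0' hnsq
  have hβ34 : |β| < 3 / 4 := by
    have h1 := tri3 β σ
    rw [← htd] at h1
    linarith only [h1, t3, hτ'2, hσ]
  have hε4 : ε ≤ 1 / 4 := by
    refine ε2.trans ?_
    rw [div_le_div_iff₀ hw (by norm_num)]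
    have h1 : 4 * d * 4 ≤ d ^ 4 := by
      have h2 : d ^ 4 = d ^ 3 * d := by ring
      have h3 : 216 ≤ d ^ 3 := by
        have := le_self_pow₀ hd1' (show (3 : ℕ) ≠ 0 by norm_num)
        linarith only [this, hd0]
      rw [h2]
      have h4 := mul_le_mul_of_nonneg_right h3 hd0'.le
      linarith only [h4, hd0']
    linarith only [h1, hw4]
  have hβ'1 : |β'| ≤ 1 := by
    have h1 := tri3 β' β
    rw [abs_sub_comm, ← hε] at h1
    linarith only [h1, hβ34, hε4]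
  have hε0 : 0 ≤ ε := by rw [hε]; exact abs_nonneg _
  have g1 : 6 * K * M * |β - β'| * |ev a b c β'| ^ s * 2 ^ n < 1 := by
    rw [← hε]
    exact cond1 hs hK hM1 hd1' hdw.symm hε0 ε2 (abs_nonneg _) v2 hd1
  have g2 : 10368 * M ^ 5 * K * |β - β'| < 1 := by
    rw [← hε]
    exact cond2 hs hK hM1 hd1' hdw.symm ε2 hd2
  have g4 : 216 * M ^ 3 * K ^ 2 * (|ev a b c β'| ^ s) ^ 2 * (2 * |(a : ℝ)| ^ n * M ^ 2) ^ (n + 1) * H <
      |β - β'| * |(a' : ℝ)| := by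
    rw [← hε, ← hXd, hεX]
    have hH0 : 0 < H := by linarith only [hH1]
    have h1 : 216 * M ^ 3 * K ^ 2 * (|ev a b c β'| ^ s) ^ 2 * (2 * |(a : ℝ)| ^ n * M ^ 2) ^ (n + 1) * H ≤ C₄ := by
      rw [hC₄]
      gcongr
    have h2 : C₄ < J / (2 * w) := by
      rw [lt_div_iff₀ (by positivity)]
      linarith only [j3, hJJ]
    linarith only [h1, h2, d2]
  have hδS : (a : ℝ) * (σ - σ') ≠ 0 := by rw [← hwd]; exact hw.ne'
  have hgood : Good n K (8 * K * |(a : ℝ)| ^ n * M ^ 2) β :=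
    good hs hn hK hM ha0' ha'0' hS hP (by linarith only [hσ]) h.hσ' hβ34.le hβ'1 hδS (by rw [hPδ]; exact hδ0)
      hresP hPirr (by rw [← htd, ← sq_abs (a' : ℝ), ← hXd]; exact t2) hV1 (by rw [← hε]; linarith only [hε4])
      hH1 hH g1 g2 g3 g4 rfl
  obtain ⟨d', e1, e2, e3, e4⟩ := exists_d (Z := Z) hs hδ0 hw1 d2 (by linarith only [j5, hJJ])
  refine ⟨a', b', c', β, β', d', ⟨hP, by rw [hPδ]; exact hδ0, hβ34, hβ'1, hnsq, hresP, by rw [hPδ]; exact e2, ?_⟩,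
    e3, ?_, ?_, hgood⟩
  · rw [hPδ, ← hXd]
    exact cond5 hs hw1 hd0 hJ0 x2 d2 e2 e4
  · rw [← hXd]
    refine le_trans ?_ x1
    rw [le_div_iff₀ hd0']
    linarith only [j6, hJJ]
  · rw [← htd]
    linarith only [t3, hτ'1]

end Pool.Agent.H595.ED
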