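import Pool.Agent.H595.ED.ED7

/-!
# The chain and its limit
-/

set_option autoImplicit false

namespace Pool.Agent.H595.ED

open Polynomial Filter Topology

/-- Liouville's inequality for the root of a quadratic polynomial -/
theorem liouv' {m : ℕ} {A B C' : ℤ} {σ σ' : ℝ} (hA : A ≠ 0) (hS : Rt A B C' σ σ')
    (hσ : |σ| ≤ 1) (hσ' : |σ'| ≤ 1) (hδ : (A : ℝ) * (σ - σ') ≠ 0) {Q : ℤ[X]} (hne1 : aeval σ Q ≠ 0)
    (hne2 : aeval σ' Q ≠ 0) (hd : Q.natDegree ≤ m) {Y : ℝ} (hY : ∀ i, |(Q.coeff i : ℝ)| ≤ Y) {α : ℝ}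
    (hα : aeval α Q = 0) (hα1 : |α| ≤ 1) : 1 ≤ |(A : ℝ)| ^ m * (((m : ℝ) + 1) ^ 3) ^ 2 * Y ^ 2 * |σ - α| := by
  have hY0 : 0 ≤ Y := (abs_nonneg _).trans (hY 0)
  have hM0 : 0 ≤ ((m : ℝ) + 1) ^ 3 := by positivity
  have h1 := poly_Io hS hd hd
  obtain ⟨x, y, e1, e2, e3⟩ := norm_form hS h1
  have hy : y = 0 := by
    have h2 : (y : ℝ) * (A * (σ - σ')) = 0 := by
      have h3 : (A : ℝ) ^ m * (aeval σ Q * aeval σ' Q) = (A : ℝ) ^ m * (aeval σ' Q * aeval σ Q) := by ring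
      rw [h3] at e1
      linarith
    rcases mul_eq_zero.1 h2 with h3 | h3
    · exact_mod_cast h3
    · exact absurd h3 hδ
  obtain ⟨u, hu, -⟩ := e3 hy
  have hAr : (A : ℝ) ≠ 0 := by exact_mod_cast hA
  have hu0 : u ≠ 0 := by
    rintro rfl
    rw [Int.cast_zero] at hu
    exact (mul_ne_zero (pow_ne_zero m hAr) (mul_ne_zero hne1 hne2)) hu
  have hu1 : (1 : ℝ) ≤ |(u : ℝ)| := by
    rw [← Int.cast_abs]
    exact_mod_cast Int.one_le_abs hu0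
  rw [← hu, abs_mul, abs_pow, abs_mul] at hu1
  have b1 := bd1 hd hY hα1 hσ
  rw [hα, sub_zero] at b1
  have b2 := bd0 hd hY hσ'
  calc 1 ≤ |(A : ℝ)| ^ m * (|aeval σ Q| * |aeval σ' Q|) := hu1
    _ ≤ |(A : ℝ)| ^ m * ((((m : ℝ) + 1) ^ 3 * Y * |σ - α|) * (((m : ℝ) + 1) ^ 3 * Y)) := by gcongr
    _ = _ := by ring

/-! ### The beginning -/

theorem init {s : ℕ} (hs : 2 ≤ s) (Z : ℝ) (hZ : 16 ≤ Z) : ∃ (A B C a b c : ℤ) (σ σ' d : ℝ),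
    St s A B C a b c σ σ' d ∧ Z ≤ d := by
  obtain ⟨l, hl⟩ := exists_nat_ge ((max Z 1) ^ (2 * s))
  obtain ⟨k, hk⟩ : ∃ k : ℤ, k = 5 * l + 1 := ⟨_, rfl⟩
  have hl0 : (0 : ℝ) ≤ l := Nat.cast_nonneg l
  have hkr : (k : ℝ) = 5 * l + 1 := by rw [hk]; push_cast; ring
  have hk1 : (1 : ℝ) ≤ k := by rw [hkr]; linarith
  obtain ⟨a, ha⟩ : ∃ a : ℤ, a = 2 * k + 1 := ⟨_, rfl⟩
  have har : (a : ℝ) = 2 * k + 1 := by rw [ha]; push_cast; ring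
  have ha0 : (0 : ℝ) < a := by rw [har]; linarith
  have hD : ((1 ^ 2 - 4 * a * -k : ℤ) : ℝ) = 8 * (k : ℝ) ^ 2 + 4 * k + 1 := by
    rw [ha]
    push_cast
    ring
  obtain ⟨δ, hδ0, hδ⟩ : ∃ δ : ℝ, 0 < δ ∧ δ ^ 2 = ((1 ^ 2 - 4 * a * -k : ℤ) : ℝ) := by
    have h1 : 0 < ((1 ^ 2 - 4 * a * -k : ℤ) : ℝ) := by rw [hD]; positivity
    exact ⟨√((1 ^ 2 - 4 * a * -k : ℤ) : ℝ), Real.sqrt_pos.2 h1, Real.sq_sqrt h1.le⟩
  obtain ⟨hP, hPδ⟩ := root_pair (a' := a) (b' := 1) (c' := -k) ha0.ne' hδ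
  rw [hD] at hδ
  push_cast at hP hPδ
  have hδ1 : δ < 3 * k + 5 / 2 := by
    apply lt_of_pow_lt_pow_left₀ 2 (by linarith)
    rw [hδ]
    nlinarith
  have hδ2 : a ≤ δ := by
    apply le_of_sq_le_sq _ hδ0.le
    rw [hδ, har]
    nlinarith
  have hδ3 : δ ≤ 4 * k + 1 := by
    apply le_of_sq_le_sq _ (by linarith)
    rw [hδ]
    nlinarith
  obtain ⟨d, e1, e2, e3, e4⟩ := exists_d (J := 2 * δ) (w := 1) (Z := Z) hs hδ0 le_rfl (by linarith) (by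
    have : (max Z 1) ^ (2 * s) ≤ δ := by
      refine hl.trans (le_trans ?_ hδ2)
      rw [har, hkr]
      linarith
    linarith)
  refine ⟨2, 0, -1, a, 1, -k, (-1 + δ) / (2 * a), (-1 - δ) / (2 * a), d, ⟨by simpa using hP, ?_, ?_, ?_, ?_, ?_, ?_, ?_⟩,
    e3⟩
  · rw [hPδ]
    exact hδ0
  · rw [abs_div, abs_of_pos (show (0 : ℝ) < 2 * a by positivity), div_lt_iff₀ (by positivity), abs_lt, har]
    constructor <;> linarith
  · rw [abs_div, abs_of_pos (show (0 : ℝ) < 2 * a by positivity), div_le_iff₀ (by positivity), abs_le, har]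
    constructor <;> linarith
  · rintro ⟨r, hr⟩
    have h1 : r * r = 200 * (l : ℤ) ^ 2 + 120 * l - 20 * l + 13 := by
      rw [← hr, ha, hk]
      ring
    have h2 : r * r % 5 = 3 := by
      rw [h1]
      omega
    have h3 : r % 5 = 0 ∨ r % 5 = 1 ∨ r % 5 = 2 ∨ r % 5 = 3 ∨ r % 5 = 4 := by omega
    rcases h3 with h | h | h | h | h <;> rw [Int.mul_emod, h] at h2 <;> norm_num at h2
  · right
    unfold res
    rw [ha]
    ring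
  · rw [hPδ]
    exact e2
  · rw [hPδ, abs_of_pos ha0]
    have h1 : 16 * d ≤ δ := by
      rw [← e2]
      have h3 : 1 ≤ d := by linarith
      calc 16 * d ≤ d * d := by
            apply mul_le_mul_of_nonneg_right _ e1.le
            linarith
        _ = d ^ 2 := by ring
        _ ≤ d ^ (2 * s) := pow_le_pow_right₀ h3 (by omega)
    calc 16 * (a : ℝ) * d = a * (16 * d) := by ring
      _ ≤ δ * δ := by gcongr
      _ = δ ^ 2 := by ring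

/-! ### The chain -/

/-- the records -/
structure Rec where
  j : ℕ
  A : ℤ
  B : ℤ
  C : ℤ
  a : ℤ
  b : ℤ
  c : ℤ
  σ : ℝ
  σ' : ℝ
  d : ℝ
  τ : ℝ

/-- the threshold -/
noncomputable def Dth (s n : ℕ) (M K : ℝ) : ℝ :=
  216 + 24 * K * M * 6 ^ s * 2 ^ n + 41472 * M ^ 5 * K + 384 * M * K * (6 * M) ^ n * 4 ^ (s * (n - 1))

/-- the bound for the height -/
noncomputable def Yth (n : ℕ) (M : ℝ) (r : Rec) : ℝ := 8 * ((r.j : ℝ) + 1) * |(r.a : ℝ)| ^ n * M ^ 2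

theorem exists_seq {n s : ℕ} (hs : 2 ≤ s) (hn : n = 2 * s) {M : ℝ} (hM : M = ((n : ℝ) + 1) ^ 3) :
    ∃ r : ℕ → Rec, (∀ j, (r j).j = j) ∧
      (∀ j, St s (r j).A (r j).B (r j).C (r j).a (r j).b (r j).c (r j).σ (r j).σ' (r j).d) ∧
      (∀ j, 0 < (r j).τ ∧ (r j).τ ≤ 1 / 8) ∧
      (∀ j, |(r (j + 1)).σ - (r j).σ| ≤ (r j).τ ∧ (r (j + 1)).τ ≤ (r j).τ / 4 ∧
        (r (j + 1)).τ ≤ 1 / (2 * Yth n M (r (j + 1)) ^ (n + 1)) ∧
        (r (j + 1)).τ ≤ 1 / (2 * ((j : ℝ) + 1) * |((r (j + 1)).a : ℝ)| ^ (j + 1)) ∧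
        ((j + 1 : ℕ) : ℝ) ≤ |((r (j + 1)).a : ℝ)| ∧
        Good n ((j : ℝ) + 1) (Yth n M (r j)) (r (j + 1)).σ) := by
  have hM1 : 1 ≤ M := by
    rw [hM]
    exact one_le_pow₀ (by linarith only [Nat.cast_nonneg (α := ℝ) n])
  have hM0 : 0 < M := by linarith
  obtain ⟨P, hP⟩ : ∃ P : Rec → Prop, P = fun r => St s r.A r.B r.C r.a r.b r.c r.σ r.σ' r.d ∧
    (0 < r.τ ∧ r.τ ≤ 1 / 8) ∧ Dth s n M ((r.j : ℝ) + 1) < r.d + 1 := ⟨_, rfl⟩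
  obtain ⟨R, hR⟩ : ∃ R : Rec → Rec → Prop, R = fun r r' => r'.j = r.j + 1 ∧ |r'.σ - r.σ| ≤ r.τ ∧ r'.τ ≤ r.τ / 4 ∧
    r'.τ ≤ 1 / (2 * Yth n M r' ^ (n + 1)) ∧ r'.τ ≤ 1 / (2 * ((r.j : ℝ) + 1) * |(r'.a : ℝ)| ^ (r.j + 1)) ∧
    ((r.j + 1 : ℕ) : ℝ) ≤ |(r'.a : ℝ)| ∧ Good n ((r.j : ℝ) + 1) (Yth n M r) r'.σ := ⟨_, rfl⟩
  have hstep : ∀ r, P r → ∃ r', P r' ∧ R r r' := by
    intro r hr
    rw [hP] at hr
    obtain ⟨h1, ⟨h2, h3⟩, h4⟩ := hr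
    have hj0 : (0 : ℝ) ≤ r.j := Nat.cast_nonneg _
    have hK : (1 : ℝ) ≤ (r.j : ℝ) + 1 := by linarith
    obtain ⟨K, hKd⟩ : ∃ K : ℝ, K = (r.j : ℝ) + 1 := ⟨_, rfl⟩
    rw [← hKd] at hK h4
    have hK0 : 0 < K := by linarith
    unfold Dth at h4
    have p1 : 0 ≤ 24 * K * M * 6 ^ s * 2 ^ n := by positivity
    have p2 : 1 < 41472 * M ^ 5 * K := by
      have : 1 ≤ M ^ 5 := one_le_pow₀ hM1
      nlinarith
    have p3 : 0 ≤ 384 * M * K * (6 * M) ^ n * 4 ^ (s * (n - 1)) := by positivity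
    obtain ⟨a', b', c', β, β', d', g1, g2, g3, g4, g5⟩ := step hs hn (K := K) hK hM h1 (by linarith) (by linarith)
      (by linarith) (by linarith) h2 (max (Dth s n M (K + 1)) ((r.j + 1 : ℕ) : ℝ))
    obtain ⟨Y', hY'⟩ : ∃ Y' : ℝ, Y' = 8 * (((r.j + 1 : ℕ) : ℝ) + 1) * |(a' : ℝ)| ^ n * M ^ 2 := ⟨_, rfl⟩
    have ha' : ((r.j + 1 : ℕ) : ℝ) ≤ |(a' : ℝ)| := (le_max_right _ _).trans g3
    have ha'0 : 0 < |(a' : ℝ)| := by
      refine lt_of_lt_of_le ?_ ha'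
      push_cast
      linarith
    have hY'0 : 0 < Y' := by rw [hY']; positivity
    obtain ⟨τ', t0, t1, t2, t3⟩ : ∃ τ' : ℝ, 0 < τ' ∧ τ' ≤ r.τ / 4 ∧ τ' ≤ 1 / (2 * Y' ^ (n + 1)) ∧
        τ' ≤ 1 / (2 * ((r.j : ℝ) + 1) * |(a' : ℝ)| ^ (r.j + 1)) := by
      refine ⟨min (r.τ / 4) (min (1 / (2 * Y' ^ (n + 1))) (1 / (2 * ((r.j : ℝ) + 1) * |(a' : ℝ)| ^ (r.j + 1)))),
        lt_min (by positivity) (lt_min (by positivity) (by positivity)), min_le_left _ _,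
        (min_le_right _ _).trans (min_le_left _ _), (min_le_right _ _).trans (min_le_right _ _)⟩
    refine ⟨⟨r.j + 1, r.a, r.b, r.c, a', b', c', β, β', d', τ'⟩, ?_, ?_⟩
    · rw [hP]
      refine ⟨g1, ⟨t0, by linarith⟩, ?_⟩
      have h5 := (le_max_left _ _).trans g2
      show Dth s n M (((r.j + 1 : ℕ) : ℝ) + 1) < d' + 1
      have h6 : ((r.j + 1 : ℕ) : ℝ) + 1 = K + 1 := by rw [hKd]; push_cast; ring
      rw [h6]
      linarith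
    · rw [hR]
      refine ⟨rfl, g4, t1, ?_, t3, ha', ?_⟩
      · show τ' ≤ 1 / (2 * Yth n M _ ^ (n + 1))
        unfold Yth
        rw [hY'] at t2
        exact t2
      · unfold Yth
        rw [← hKd]
        exact g5
  obtain ⟨A, B, C, a, b, c, σ, σ', d, i1, i2⟩ := init hs (max 16 (Dth s n M 1)) (le_max_left _ _)
  have hchain : ∃ r : ℕ → Rec, r 0 = ⟨0, A, B, C, a, b, c, σ, σ', d, 1 / 8⟩ ∧ (∀ n, P (r n)) ∧
      ∀ n, R (r n) (r (n + 1)) := by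
    have h0 : P ⟨0, A, B, C, a, b, c, σ, σ', d, 1 / 8⟩ := by
      rw [hP]
      refine ⟨i1, ⟨by norm_num, le_refl _⟩, ?_⟩
      have h5 := (le_max_right _ _).trans i2
      show Dth s n M (((0 : ℕ) : ℝ) + 1) < d + 1
      rw [Nat.cast_zero, zero_add]
      linarith
    choose! g hg1 hg2 using hstep
    refine ⟨fun n => Nat.rec ⟨0, A, B, C, a, b, c, σ, σ', d, 1 / 8⟩ (fun _ a => g a) n, rfl, ?_, ?_⟩
    · intro n
      induction n with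
      | zero => exact h0
      | succ n ih => exact hg1 _ ih
    · intro n
      have hPn : ∀ n, P (Nat.rec ⟨0, A, B, C, a, b, c, σ, σ', d, 1 / 8⟩ (fun _ a => g a) n) := by
        intro n
        induction n with
        | zero => exact h0
        | succ n ih => exact hg1 _ ih
      exact hg2 _ (hPn n)
  obtain ⟨r, r0, rP, rR⟩ := hchain
  rw [hP] at rP
  rw [hR] at rR
  have hj : ∀ j, (r j).j = j := by
    intro j
    induction j with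
    | zero => rw [r0]
    | succ j ih => rw [(rR j).1, ih]
  refine ⟨r, hj, fun j => (rP j).1, fun j => (rP j).2.1, fun j => ?_⟩
  obtain ⟨-, k2, k3, k4, k5, k6, k7⟩ := rR j
  rw [hj j] at k5 k6 k7
  exact ⟨k2, k3, k4, k5, k6, k7⟩

end Pool.Agent.H595.ED
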