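import Pool.Agent.H595.ED.ED8

/-!
# The limit
-/

set_option autoImplicit false

namespace Pool.Agent.H595.ED

open Polynomial Filter Topology

/-- the height of a polynomial -/
noncomputable def ht (Q : ℤ[X]) : ℕ := Q.support.sup fun i => (Q.coeff i).natAbs

theorem coeff_le_ht (Q : ℤ[X]) (i : ℕ) : |(Q.coeff i : ℝ)| ≤ ht Q := by
  by_cases h : i ∈ Q.support
  · have h1 : (Q.coeff i).natAbs ≤ ht Q := Finset.le_sup (f := fun i => (Q.coeff i).natAbs) h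
    have h2 : (((Q.coeff i).natAbs : ℕ) : ℝ) = |(Q.coeff i : ℝ)| := by
      rw [Nat.cast_natAbs]
      push_cast
      rfl
    rw [← h2]
    exact_mod_cast h1
  · rw [notMem_support_iff.1 h]
    simp

theorem one_le_ht {Q : ℤ[X]} (h : Q ≠ 0) : (1 : ℝ) ≤ ht Q := by
  refine le_trans ?_ (coeff_le_ht Q Q.natDegree)
  rw [← Int.cast_abs]
  exact_mod_cast Int.one_le_abs (leadingCoeff_ne_zero.2 h)

/-- finitely many polynomials -/
theorem finite_pol (d : ℕ) (Y : ℝ) : {Q : ℤ[X] | Q.natDegree = d ∧ (ht Q : ℝ) ≤ Y}.Finite := by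
  obtain ⟨N, hN⟩ := exists_nat_ge Y
  have h2 : (Set.pi (Set.univ : Set (Fin (d + 1))) fun _ => Set.Icc (-(N : ℤ)) N).Finite :=
    Set.Finite.pi fun _ => Set.finite_Icc _ _
  refine Set.Finite.of_finite_image (f := fun (A : ℤ[X]) (i : Fin (d + 1)) => A.coeff i) (h2.subset ?_) ?_
  · rintro _ ⟨A, hA, rfl⟩ i -
    have h3 : |(A.coeff i : ℝ)| ≤ N := (coeff_le_ht A i).trans (hA.2.trans hN)
    rw [abs_le] at h3
    constructor
    · have := h3.1
      exact_mod_cast this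
    · have := h3.2
      exact_mod_cast this
  · intro A hA B hB hAB
    ext n
    by_cases hn : n ≤ d
    · exact congrFun hAB ⟨n, by omega⟩
    · have hA := hA.1
      have hB := hB.1
      rw [coeff_eq_zero_of_natDegree_lt (by omega), coeff_eq_zero_of_natDegree_lt (by omega)]

/-- an irreducible factor -/
theorem exists_irr {y : ℝ} {P : ℤ[X]} (hP0 : P ≠ 0) (hP : aeval y P = 0) :
    ∃ A : ℤ[X], A ≠ 0 ∧ Irreducible A ∧ aeval y A = 0 := by
  obtain ⟨s, hs1, u, hs2⟩ := WfDvdMonoid.exists_factors P hP0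
  have h1 : aeval y (s.prod * (u : ℤ[X])) = 0 := by rw [hs2]; exact hP
  rw [map_mul, mul_eq_zero] at h1
  have h2 : aeval y s.prod = 0 := by
    refine h1.resolve_right (fun h3 => ?_)
    obtain ⟨r, hr, hr'⟩ := Polynomial.isUnit_iff.1 u.isUnit
    rw [← hr', aeval_C] at h3
    have : (r : ℝ) = 0 := by simpa using h3
    rw [Int.cast_eq_zero] at this
    rw [this] at hr
    exact not_isUnit_zero hr
  rw [map_multiset_prod, Multiset.prod_eq_zero_iff, Multiset.mem_map] at h2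
  obtain ⟨A, hA, hA0⟩ := h2
  exact ⟨A, (hs1 A hA).ne_zero, hs1 A hA, hA0⟩

theorem exists_zeta {n s : ℕ} (hs : 2 ≤ s) (hn : n = 2 * s) {M : ℝ} (hM : M = ((n : ℝ) + 1) ^ 3) :
    ∃ (ζ : ℝ) (r : ℕ → Rec), |ζ| ≤ 1 ∧ (∀ j, (r j).j = j) ∧
      (∀ j, St s (r j).A (r j).B (r j).C (r j).a (r j).b (r j).c (r j).σ (r j).σ' (r j).d) ∧
      (∀ j, |(r (j + 1)).σ - ζ| ≤ 1 / Yth n M (r (j + 1)) ^ (n + 1) ∧
        |(r (j + 1)).σ - ζ| * |((r (j + 1)).a : ℝ)| ^ (j + 1) * ((j : ℝ) + 1) ≤ 1 ∧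
        ((j + 1 : ℕ) : ℝ) ≤ |((r (j + 1)).a : ℝ)| ∧
        Good n ((j : ℝ) + 1) (Yth n M (r j)) (r (j + 1)).σ) := by
  obtain ⟨r, hj, hSt, hτ, hr⟩ := exists_seq hs hn hM
  have hdk : ∀ j k, (r (j + k)).τ ≤ (r j).τ * (1 / 4) ^ k := by
    intro j k
    induction k with
    | zero => simp
    | succ k ih =>
      have := (hr (j + k)).2.1
      rw [← add_assoc, pow_succ]
      linarith
  have hdist : ∀ j, dist (r j).σ (r (j + 1)).σ ≤ (r j).τ := fun j => by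
    rw [dist_comm, Real.dist_eq]
    exact (hr j).1
  have hcau : CauchySeq fun j => (r j).σ := by
    apply cauchySeq_of_le_geometric (1 / 4) (r 0).τ (by norm_num)
    intro j
    refine (hdist j).trans ?_
    simpa using hdk 0 j
  obtain ⟨ζ, hζ⟩ := cauchySeq_tendsto_of_complete hcau
  have htail : ∀ j, |(r j).σ - ζ| ≤ 4 / 3 * (r j).τ := by
    intro j
    have h1 : Tendsto (fun k => (r (j + k)).σ) atTop (𝓝 ζ) := by
      have := hζ.comp (tendsto_add_atTop_nat j)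
      refine this.congr (fun k => ?_)
      rw [Function.comp, add_comm]
    have h2 := dist_le_of_le_geometric_of_tendsto₀ (1 / 4) (r j).τ (by norm_num) (fun k => by
      show dist (r (j + k)).σ (r (j + (k + 1))).σ ≤ _
      rw [← add_assoc]
      exact (hdist (j + k)).trans (hdk j k)) h1
    rw [Real.dist_eq, add_zero] at h2
    have h3 : (r j).τ / (1 - 1 / 4) = 4 / 3 * (r j).τ := by ring
    linarith
  refine ⟨ζ, r, ?_, hj, hSt, fun j => ?_⟩
  · have h1 := htail 0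
    have h2 := tri3 ζ (r 0).σ
    rw [abs_sub_comm] at h2
    linarith [(hSt 0).hσ, (hτ 0).2]
  · obtain ⟨-, -, h3, h4, h5, h6⟩ := hr j
    have ht := htail (j + 1)
    have hj0 : (0 : ℝ) ≤ j := Nat.cast_nonneg j
    have ha0 : 0 < |((r (j + 1)).a : ℝ)| := by
      refine lt_of_lt_of_le ?_ h5
      push_cast
      linarith
    have hM0 : 0 < M := by rw [hM]; positivity
    have hY0 : 0 < Yth n M (r (j + 1)) := by unfold Yth; positivity
    refine ⟨?_, ?_, h5, h6⟩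
    · have e1 : 1 / (2 * Yth n M (r (j + 1)) ^ (n + 1)) = 1 / 2 * (1 / Yth n M (r (j + 1)) ^ (n + 1)) := by
        rw [one_div_mul_one_div_rev, mul_comm]
      rw [e1] at h3
      have : 0 < 1 / Yth n M (r (j + 1)) ^ (n + 1) := by positivity
      linarith
    · rw [le_div_iff₀ (by positivity)] at h4
      have h7 : |(r (j + 1)).σ - ζ| * (|((r (j + 1)).a : ℝ)| ^ (j + 1) * ((j : ℝ) + 1)) ≤
          4 / 3 * (r (j + 1)).τ * (|((r (j + 1)).a : ℝ)| ^ (j + 1) * ((j : ℝ) + 1)) :=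
        mul_le_mul_of_nonneg_right ht (by positivity)
      linarith

theorem main {n s : ℕ} (hs : 2 ≤ s) (hn : n = 2 * s) : ∃ ζ : ℝ, Transcendental ℤ ζ ∧
    ∀ c : ℝ, ∃ Y₀ : ℝ, ∀ Q : ℤ[X], Irreducible Q → Q.natDegree = n → Y₀ ≤ ht Q → ∀ α : ℝ, aeval α Q = 0 →
      c / (ht Q : ℝ) ^ (n + 1) < |ζ - α| := by
  obtain ⟨M, hM⟩ : ∃ M : ℝ, M = ((n : ℝ) + 1) ^ 3 := ⟨_, rfl⟩
  have hM1 : 1 ≤ M := by
    rw [hM]
    exact one_le_pow₀ (by linarith only [Nat.cast_nonneg (α := ℝ) n])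
  obtain ⟨ζ, r, hζ, hj, hSt, hr⟩ := exists_zeta hs hn hM
  have hpa : ∀ j, (r j).a ≠ 0 := by
    intro j h0
    have h1 := (hSt j).pos
    rw [h0, Int.cast_zero, zero_mul] at h1
    exact lt_irrefl _ h1
  refine ⟨ζ, ?_, ?_⟩
  · -- transcendence
    rintro ⟨P, hP0, hP⟩
    obtain ⟨F, hF0, hF, hFζ⟩ := exists_irr hP0 hP
    obtain ⟨m, hm⟩ : ∃ m : ℕ, m = F.natDegree := ⟨_, rfl⟩
    obtain ⟨H, hH1, hH⟩ := exists_H F
    obtain ⟨j, hj1⟩ := exists_nat_gt ((m : ℝ) + (((m : ℝ) + 1) ^ 3) ^ 2 * H ^ 2 + H)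
    have hm0 : (0 : ℝ) ≤ m := Nat.cast_nonneg m
    have hp : 0 ≤ (((m : ℝ) + 1) ^ 3) ^ 2 * H ^ 2 := by positivity
    obtain ⟨-, h2, h3, -⟩ := hr j
    have hS := hSt (j + 1)
    have ha0 := hpa (j + 1)
    obtain ⟨q, hq⟩ : ∃ q : Rec, q = r (j + 1) := ⟨_, rfl⟩
    rw [← hq] at h2 h3 hS ha0
    have hirr : Irreducible (qp q.a q.b q.c) := irr_qp hS.hres ha0 hS.nsq
    have hnd : ¬ qp q.a q.b q.c ∣ F := by
      rintro ⟨T, hT⟩
      have h4 : q.a ∣ F.leadingCoeff := by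
        rw [hT, leadingCoeff_mul, leadingCoeff_qp ha0]
        exact dvd_mul_right _ _
      have h5 : |(q.a : ℝ)| ≤ |(F.leadingCoeff : ℝ)| := by
        have h1 := Int.le_of_dvd (abs_pos.2 (leadingCoeff_ne_zero.2 hF0)) ((abs_dvd_abs _ _).2 h4)
        rw [← Int.cast_abs, ← Int.cast_abs]
        exact_mod_cast h1
      have h6 := hH F.natDegree
      rw [coeff_natDegree] at h6
      push_cast at h3
      linarith
    have hne : ∀ x : ℝ, ev q.a q.b q.c x = 0 → aeval x F ≠ 0 := by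
      intro x hx h0
      exact hnd (dvd_of_root hirr (by rw [natDegree_qp ha0]; norm_num) (by rw [aeval_qp]; exact hx) h0)
    have h4 := liouv' (m := m) ha0 hS.rt (by linarith [hS.hσ]) hS.hσ' hS.pos.ne' (hne _ (ev_root hS.rt))
      (hne _ (ev_root hS.rt.swap)) hm.ge hH hFζ hζ
    have ha1 : (1 : ℝ) ≤ |(q.a : ℝ)| := by
      rw [← Int.cast_abs]
      exact_mod_cast Int.one_le_abs ha0
    have hmj : m ≤ j + 1 := by
      have : (m : ℝ) ≤ j := by linarith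
      have h5 : m ≤ j := by exact_mod_cast this
      omega
    have h5 : |(q.a : ℝ)| ^ m ≤ |(q.a : ℝ)| ^ (j + 1) := pow_le_pow_right₀ ha1 hmj
    obtain ⟨e, he⟩ : ∃ e : ℝ, e = |q.σ - ζ| := ⟨_, rfl⟩
    rw [← he] at h2 h4
    have he0 : 0 ≤ e := by rw [he]; exact abs_nonneg _
    obtain ⟨L, hL⟩ : ∃ L : ℝ, L = (((m : ℝ) + 1) ^ 3) ^ 2 * H ^ 2 := ⟨_, rfl⟩
    rw [← hL] at hj1 hp
    have h6 : 1 ≤ |(q.a : ℝ)| ^ (j + 1) * e * L := by
      calc 1 ≤ |(q.a : ℝ)| ^ m * (((m : ℝ) + 1) ^ 3) ^ 2 * H ^ 2 * e := h4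
        _ = |(q.a : ℝ)| ^ m * e * L := by rw [hL]; ring
        _ ≤ |(q.a : ℝ)| ^ (j + 1) * e * L := by gcongr
    have h7 : L < (j : ℝ) + 1 := by linarith
    have h8 : 0 ≤ |(q.a : ℝ)| ^ (j + 1) * e := by positivity
    have h9 : 0 < |(q.a : ℝ)| ^ (j + 1) * e := by
      rcases h8.lt_or_eq with h | h
      · exact h
      · rw [← h, zero_mul] at h6
        linarith
    have h10 : |(q.a : ℝ)| ^ (j + 1) * e * L < |(q.a : ℝ)| ^ (j + 1) * e * ((j : ℝ) + 1) :=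
      mul_lt_mul_of_pos_left h7 h9
    linarith
  · intro c
    obtain ⟨j₀, hj₀⟩ := exists_nat_ge c
    refine ⟨Yth n M (r j₀), fun Q hQ hd hY α hα => ?_⟩
    have hH1 := one_le_ht hQ.ne_zero
    obtain ⟨H, hH⟩ : ∃ H : ℝ, H = (ht Q : ℝ) := ⟨_, rfl⟩
    have hcoef : ∀ i, |(Q.coeff i : ℝ)| ≤ H := by
      intro i
      rw [hH]
      exact coeff_le_ht Q i
    rw [← hH] at hY hH1 ⊢
    have hYlow : ∀ j : ℕ, (j : ℝ) ≤ Yth n M (r j) := by
      intro j
      have ha1 : (1 : ℝ) ≤ |((r j).a : ℝ)| := by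
        rw [← Int.cast_abs]
        exact_mod_cast Int.one_le_abs (hpa j)
      have h1 : 1 ≤ |((r j).a : ℝ)| ^ n := one_le_pow₀ ha1
      have h2 : 1 ≤ M ^ 2 := one_le_pow₀ hM1
      have hj0 : (0 : ℝ) ≤ j := Nat.cast_nonneg j
      unfold Yth
      rw [hj j]
      calc (j : ℝ) ≤ 8 * ((j : ℝ) + 1) * 1 * 1 := by linarith
        _ ≤ 8 * ((j : ℝ) + 1) * |((r j).a : ℝ)| ^ n * M ^ 2 := by gcongr
    have hex : ∃ i, j₀ < i ∧ H < Yth n M (r i) := by
      obtain ⟨i, hi⟩ := exists_nat_gt (H + j₀)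
      have hj0 : (0 : ℝ) ≤ j₀ := Nat.cast_nonneg j₀
      refine ⟨i, ?_, ?_⟩
      · have : (j₀ : ℝ) < i := by linarith
        exact_mod_cast this
      · linarith [hYlow i]
    classical
    obtain ⟨i, ⟨hi1, hi2⟩, hi3⟩ : ∃ i, (j₀ < i ∧ H < Yth n M (r i)) ∧ ∀ k, k < i → ¬ (j₀ < k ∧ H < Yth n M (r k)) :=
      ⟨Nat.find hex, Nat.find_spec hex, fun k hk => Nat.find_min hex hk⟩
    obtain ⟨j, rfl⟩ : ∃ j, i = j + 1 := ⟨i - 1, by omega⟩
    have hjj : j₀ ≤ j := by omega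
    have hYj : Yth n M (r j) ≤ H := by
      rcases hjj.eq_or_lt with h | h
      · rw [← h]
        exact hY
      · by_contra hcon
        push Not at hcon
        exact hi3 j (by omega) ⟨h, hcon⟩
    obtain ⟨h1, -, -, h4⟩ := hr j
    have h5 := h4 Q hQ hd H hcoef hYj α hα
    have hH0 : 0 < H := by linarith
    have h6 : 1 / Yth n M (r (j + 1)) ^ (n + 1) ≤ 1 / H ^ (n + 1) := by
      apply one_div_le_one_div_of_le (by positivity)
      exact pow_le_pow_left₀ hH0.le hi2.le _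
    have h7 : |(r (j + 1)).σ - α| ≤ |(r (j + 1)).σ - ζ| + |ζ - α| := abs_sub_le _ _ _
    obtain ⟨g, hg⟩ : ∃ g : ℝ, g = 1 / H ^ (n + 1) := ⟨_, rfl⟩
    have hg0 : 0 < g := by rw [hg]; positivity
    have e1 : 2 * ((j : ℝ) + 1) / H ^ (n + 1) = 2 * ((j : ℝ) + 1) * g := by rw [hg]; ring
    have e2 : c / H ^ (n + 1) = c * g := by rw [hg]; ring
    rw [e1] at h5
    rw [← hg] at h6
    rw [e2]
    have hjr : (j₀ : ℝ) ≤ j := by exact_mod_cast hjj
    have h8 : c * g ≤ j * g := by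
      apply mul_le_mul_of_nonneg_right _ hg0.le
      linarith
    have h9 : 0 ≤ (j : ℝ) * g := by positivity
    linarith

end Pool.Agent.H595.ED
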